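import Pool.Agent.U160.FD.Digits

/-!
# Blocks of digits: the distances
-/

set_option autoImplicit false

namespace Pool.Agent.U160.FD

open MeasureTheory Filter

lemma block_dist (b : ℕ) (hb : 2 ≤ b) (η : ℝ) (hη : 0 < η) (W : ℕ) :
    ∀ᶠ j : ℕ in atTop, ∀ (x : ℝ) (k : ℕ), k ≤ j → (j : ℝ) ^ η ≤ k →
      ((b : ℝ) ^ (j - k), (b : ℝ) ^ k, (0 : ℤ)) ∈ blockF b η j ∧ ∀ q : ℕ, |(q:ℝ) - block b x (j - k) j| ≤ (k:ℝ) ^ W →
        |(q:ℝ) - (0 : ℤ) - (b : ℝ) ^ k * Int.fract ((b : ℝ) ^ (j - k) * x)| ≤ Real.log ((b : ℝ) ^ k) ^ (W + 2) := by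
  classical
  have ht : Tendsto (fun j : ℕ => (j:ℝ) ^ η) atTop atTop :=
    (tendsto_rpow_atTop hη).comp tendsto_natCast_atTop_atTop
  filter_upwards [ht.eventually_ge_atTop (2 ^ (W + 3) : ℝ)] with j h1 x k hk hkη
  have hk1 : (2:ℝ) ^ (W + 3) ≤ k := h1.trans hkη
  have hk8 : (1:ℝ) ≤ k := le_trans (one_le_pow₀ (by norm_num)) hk1
  refine ⟨?_, fun q hq => ?_⟩
  · unfold blockF
    rw [Finset.mem_image]
    exact ⟨k, Finset.mem_filter.2 ⟨Finset.mem_range.2 (by omega), hkη⟩, rfl⟩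
  · simp only [Int.cast_zero, sub_zero]
    have h2 := block_close b hb x j k hk
    have h3 : |(q:ℝ) - (b : ℝ) ^ k * Int.fract ((b : ℝ) ^ (j - k) * x)| ≤ (k:ℝ) ^ W + 1 := by
      have e : (q:ℝ) - (b : ℝ) ^ k * Int.fract ((b : ℝ) ^ (j - k) * x) = (q - block b x (j - k) j) +
        (block b x (j - k) j - (b : ℝ) ^ k * Int.fract ((b : ℝ) ^ (j - k) * x)) := by ring
      rw [e]
      exact (abs_add_le _ _).trans (by linarith)
    refine h3.trans ?_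
    rw [Real.log_pow]
    have h5 : Real.log 2 ≤ Real.log b := Real.log_le_log (by norm_num) (by exact_mod_cast hb)
    have h6 := Real.log_two_gt_d9
    have h7 : (k:ℝ) / 2 ≤ k * Real.log b := by
      have : (k:ℝ) * (1 / 2) ≤ k * Real.log b := mul_le_mul_of_nonneg_left (by linarith) (by linarith)
      linarith
    have h8 : ((k:ℝ) / 2) ^ (W + 2) ≤ (k * Real.log b) ^ (W + 2) := pow_le_pow_left₀ (by linarith) h7 _
    refine le_trans ?_ h8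
    have h9 : (1:ℝ) ≤ (k:ℝ) ^ W := one_le_pow₀ hk8
    have e9 : ((k:ℝ) / 2) ^ (W + 2) = (k:ℝ) ^ W * ((k:ℝ) ^ 2 / 2 ^ (W + 2)) := by
      rw [div_pow, pow_add (k:ℝ)]
      ring
    rw [e9]
    have h10 : (2:ℝ) ≤ (k:ℝ) ^ 2 / 2 ^ (W + 2) := by
      rw [le_div_iff₀ (by positivity)]
      have : (2:ℝ) ^ (W + 3) = 2 * 2 ^ (W + 2) := by ring
      nlinarith
    nlinarith

end Pool.Agent.U160.FD
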