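import Pool.Agent.U160.FD.ScaleU

/-!
# Almost every point, for families of maps
-/

set_option autoImplicit false

namespace Pool.Agent.U160.FD

open MeasureTheory Pool.Agent.TH935.GF Filter

/-- Borel-Cantelli for finite sets of maps `T p` and scales `N p`. -/
theorem ae_fam (μ : Measure ℝ) [IsProbabilityMeasure μ] (h c : ℕ) (K : ℝ)
    {κ : Type} (Adm : ℕ → κ → Prop) (Good : ℕ → κ → ℤ → Prop) (R B₀ U W : ℕ)
    (H : ∃ N₀ : ℕ, ∀ N : ℕ, N₀ ≤ N → ∀ X : κ, Adm N X → ∀ (ι : Type) [Fintype ι] (v : ι → ℤ),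
      (∀ i, ((|v i| : ℤ) : ℝ) ≤ ((R + B₀ + 3 : ℕ) : ℝ) * N) →
      (En h v : ℝ) * N ≤ Real.log N ^ (c + 2) * (Fintype.card ι : ℝ) ^ (2 * h) →
      ∀ S : Finset ι, (∀ i ∈ S, ¬ Good N X (v i)) → (S.card : ℝ) ≤ Fintype.card ι / Real.log N ^ (U + W + 1))
    {τ : Type} (F : ℕ → Finset τ) (T : τ → ℝ → ℝ) (M : τ → ℝ) (s : τ → ℤ) (X : τ → κ) (δ : ℝ) (hδ : 0 < δ) (D : ℕ)
    (hU : (D : ℝ) + 2 ≤ δ * U)
    (hF : ∀ᶠ j : ℕ in atTop, ((F j).card : ℝ) ≤ (j : ℝ) ^ D ∧ ∀ p ∈ F j, Measurable (T p) ∧ SBall h c K (μ.map (T p)) ∧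
      1 / 2 ≤ (μ.map (T p)).real (Set.Icc (-(R:ℝ)) R) ∧ Real.exp ((j:ℝ) ^ δ) ≤ M p ∧ |(s p : ℝ)| ≤ B₀ * M p ∧
      Adm ⌈M p⌉₊ (X p)) :
    ∀ᵐ x ∂μ, ∀ᶠ j : ℕ in atTop, ∀ p ∈ F j, T p x ∈ Set.Icc (-(R:ℝ)) R → ∀ a : ℤ,
      |(a:ℝ) - s p - M p * T p x| ≤ Real.log (M p) ^ W → Good ⌈M p⌉₊ (X p) a := by
  classical
  obtain ⟨l0, hl0, hs⟩ := scaleU h c K Adm Good R B₀ U W H
  have hex : Tendsto (fun j : ℕ => Real.exp ((j:ℝ) ^ δ)) atTop atTop :=
    Real.tendsto_exp_atTop.comp ((tendsto_rpow_atTop hδ).comp tendsto_natCast_atTop_atTop)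
  obtain ⟨j0, hj0⟩ := eventually_atTop.1 (hF.and ((hex.eventually_ge_atTop l0).and (eventually_ge_atTop 1)))
  set Bp : τ → Set ℝ := fun p => {x | T p x ∈ Set.Icc (-(R:ℝ)) R ∧ ∃ a : ℤ,
    |(a:ℝ) - s p - M p * T p x| ≤ Real.log (M p) ^ W ∧ ¬ Good ⌈M p⌉₊ (X p) a} with hBp
  set S : ℕ → Set ℝ := fun j => if j0 ≤ j then ⋃ p ∈ F j, Bp p else ∅ with hSd
  have hSm : ∀ j, μ (S j) ≤ ENNReal.ofReal (1 / (j:ℝ) ^ 2) := by
    intro j
    simp only [hSd]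
    split_ifs with hj
    · obtain ⟨⟨h1, h2⟩, h3, h4⟩ := hj0 j hj
      have hj1 : (1:ℝ) ≤ j := by exact_mod_cast h4
      have hj0' : (0:ℝ) < j := by linarith
      have h5 : ∀ p ∈ F j, μ.real (Bp p) ≤ 1 / (j:ℝ) ^ (D + 2) := by
        intro p hp
        obtain ⟨q1, q2, q3, q4, q5, q6⟩ := h2 p hp
        have hprob : IsProbabilityMeasure (μ.map (T p)) := Measure.isProbabilityMeasure_map q1.aemeasurable
        have h6 := hs (μ.map (T p)) q2 q3 (M p) (h3.trans q4) (X p) q6 (s p) q5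
        have h7 : μ.real (Bp p) ≤ (μ.map (T p)).real {x | x ∈ Set.Icc (-(R:ℝ)) R ∧ ∃ a : ℤ,
            |(a:ℝ) - s p - M p * x| ≤ Real.log (M p) ^ W ∧ ¬ Good ⌈M p⌉₊ (X p) a} := by
          apply ENNReal.toReal_mono (measure_ne_top _ _)
          exact Measure.le_map_apply q1.aemeasurable _
        refine h7.trans (h6.trans ?_)
        apply one_div_le_one_div_of_le (by positivity)
        have h8 : (j:ℝ) ^ δ ≤ Real.log (M p) := by
          rw [Real.le_log_iff_exp_le ((Real.exp_pos _).trans_le q4)]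
          exact q4
        calc (j:ℝ) ^ (D + 2) = (j:ℝ) ^ ((D:ℝ) + 2) := by norm_cast
          _ ≤ (j:ℝ) ^ (δ * U) := Real.rpow_le_rpow_of_exponent_le hj1 hU
          _ = ((j:ℝ) ^ δ) ^ U := by rw [Real.rpow_mul (by linarith), Real.rpow_natCast]
          _ ≤ _ := pow_le_pow_left₀ (by positivity) h8 _
      have h9 : μ.real (⋃ p ∈ F j, Bp p) ≤ 1 / (j:ℝ) ^ 2 := by
        calc μ.real (⋃ p ∈ F j, Bp p) ≤ ∑ p ∈ F j, μ.real (Bp p) := measureReal_biUnion_finset_le _ _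
          _ ≤ ∑ _p ∈ F j, 1 / (j:ℝ) ^ (D + 2) := Finset.sum_le_sum h5
          _ = (F j).card * (1 / (j:ℝ) ^ (D + 2)) := by rw [Finset.sum_const, nsmul_eq_mul]
          _ ≤ (j:ℝ) ^ D * (1 / (j:ℝ) ^ (D + 2)) := mul_le_mul_of_nonneg_right h1 (by positivity)
          _ = 1 / (j:ℝ) ^ 2 := by
              rw [pow_add]
              field_simp
      rw [← ENNReal.ofReal_toReal (measure_ne_top μ (⋃ p ∈ F j, Bp p))]
      exact ENNReal.ofReal_le_ofReal h9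
    · simp
  have hsum : ∑' j, μ (S j) ≠ ⊤ := by
    refine ne_top_of_le_ne_top ?_ (ENNReal.tsum_le_tsum hSm)
    exact (Real.summable_one_div_nat_pow.2 (by norm_num)).tsum_ofReal_ne_top
  filter_upwards [ae_eventually_notMem hsum] with x hx
  filter_upwards [hx, eventually_ge_atTop j0] with j hj hjj p hp hTp a ha
  by_contra hcon
  apply hj
  simp only [hSd, if_pos hjj]
  rw [Set.mem_iUnion₂]
  exact ⟨p, hp, hTp, a, ha, hcon⟩

/-- The small ball property bounds the measure of small intervals around a point. -/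
lemma SBall.single {h c : ℕ} {K : ℝ} {μ : Measure ℝ} [IsProbabilityMeasure μ] (hS : SBall h c K μ) (t r : ℝ)
    (hr : 0 < r) (hr2 : 2 * h * r ≤ 1 / 2) (hh : 1 ≤ h) :
    μ.real {x | |x - t| ≤ r} ^ (2 * h) ≤ K * (2 * h * r) * Real.log (1 / (2 * h * r)) ^ c := by
  have hh' : (1:ℝ) ≤ h := by exact_mod_cast hh
  refine le_trans ?_ (hS (2 * h * r) (by positivity) hr2)
  have e1 : μ.real {x | |x - t| ≤ r} ^ (2 * h) =
      (Measure.pi (fun _ : Fin h ⊕ Fin h => μ)).real (Set.pi Set.univ (fun _ => {x | |x - t| ≤ r})) := by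
    simp only [Measure.real]
    rw [Measure.pi_pi, Finset.prod_const, Finset.card_univ, Fintype.card_sum, Fintype.card_fin, ENNReal.toReal_pow]
    congr 1
    omega
  rw [e1]
  apply measureReal_mono _ (measure_ne_top _ _)
  intro x hx
  have hxi : ∀ i, |x i - t| ≤ r := fun i => hx i (Set.mem_univ i)
  show |sg h x| ≤ 2 * h * r
  have e2 : sg h x = ∑ j, (x (Sum.inl j) - t) - ∑ j, (x (Sum.inr j) - t) := by
    unfold sg
    simp only [Finset.sum_sub_distrib]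
    ring
  rw [e2]
  refine (abs_sub _ _).trans ?_
  have h4 : ∀ f : Fin h → Fin h ⊕ Fin h, |∑ j, (x (f j) - t)| ≤ h * r := by
    intro f
    refine (Finset.abs_sum_le_sum_abs _ _).trans ?_
    calc ∑ j : Fin h, |x (f j) - t| ≤ ∑ _j : Fin h, r := Finset.sum_le_sum fun j _ => hxi _
      _ = h * r := by simp
  have h5 := h4 Sum.inl
  have h6 := h4 Sum.inr
  linarith

end Pool.Agent.U160.FD
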