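import Pool.Agent.U160.FD.AeFam

/-!
# Fractional parts of dilates and blocks of digits
-/

set_option autoImplicit false

namespace Pool.Agent.U160.FD

open MeasureTheory Pool.Agent.TH935.GF Filter

theorem bc (μ : Measure ℝ) [IsProbabilityMeasure μ] {τ : Type} (F : ℕ → Finset τ) (B : τ → Set ℝ) (D : ℕ)
    (hF : ∀ᶠ j : ℕ in atTop, ((F j).card : ℝ) ≤ (j : ℝ) ^ D ∧ ∀ p ∈ F j, μ.real (B p) ≤ 1 / (j:ℝ) ^ (D + 2)) :
    ∀ᵐ x ∂μ, ∀ᶠ j : ℕ in atTop, ∀ p ∈ F j, x ∉ B p := by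
  classical
  obtain ⟨j0, hj0⟩ := eventually_atTop.1 (hF.and (eventually_ge_atTop 1))
  set S : ℕ → Set ℝ := fun j => if j0 ≤ j then ⋃ p ∈ F j, B p else ∅ with hSd
  have hSm : ∀ j, μ (S j) ≤ ENNReal.ofReal (1 / (j:ℝ) ^ 2) := by
    intro j
    simp only [hSd]
    split_ifs with hj
    · obtain ⟨⟨h1, h2⟩, h4⟩ := hj0 j hj
      have hj1 : (1:ℝ) ≤ j := by exact_mod_cast h4
      have hj0' : (0:ℝ) < j := by linarith
      have h9 : μ.real (⋃ p ∈ F j, B p) ≤ 1 / (j:ℝ) ^ 2 := by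
        calc μ.real (⋃ p ∈ F j, B p) ≤ ∑ p ∈ F j, μ.real (B p) := measureReal_biUnion_finset_le _ _
          _ ≤ ∑ _p ∈ F j, 1 / (j:ℝ) ^ (D + 2) := Finset.sum_le_sum h2
          _ = (F j).card * (1 / (j:ℝ) ^ (D + 2)) := by rw [Finset.sum_const, nsmul_eq_mul]
          _ ≤ (j:ℝ) ^ D * (1 / (j:ℝ) ^ (D + 2)) := mul_le_mul_of_nonneg_right h1 (by positivity)
          _ = 1 / (j:ℝ) ^ 2 := by
              rw [pow_add]
              field_simp
      rw [← ENNReal.ofReal_toReal (measure_ne_top μ (⋃ p ∈ F j, B p))]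
      exact ENNReal.ofReal_le_ofReal h9
    · simp
  have hsum : ∑' j, μ (S j) ≠ ⊤ := by
    refine ne_top_of_le_ne_top ?_ (ENNReal.tsum_le_tsum hSm)
    exact (Real.summable_one_div_nat_pow.2 (by norm_num)).tsum_ofReal_ne_top
  filter_upwards [ae_eventually_notMem hsum] with x hx
  filter_upwards [hx, eventually_ge_atTop j0] with j hj hjj p hp hcon
  apply hj
  simp only [hSd, if_pos hjj]
  rw [Set.mem_iUnion₂]
  exact ⟨p, hp, hcon⟩

/-- the points `s + M {l x}` are not small -/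
theorem ae_large (μ : Measure ℝ) [IsProbabilityMeasure μ] (hμ : FourierDecay μ)
    (F : ℕ → Finset (ℝ × ℝ × ℤ)) (δ : ℝ) (hδ : 0 < δ) (D : ℕ)
    (hF : ∀ᶠ j : ℕ in atTop, ((F j).card : ℝ) ≤ (j : ℝ) ^ D ∧ ∀ p ∈ F j, 1 ≤ p.1 ∧ Real.exp ((j:ℝ) ^ δ) ≤ p.2.1) :
    ∃ κ : ℕ, ∀ᵐ x ∂μ, ∀ᶠ j : ℕ in atTop, ∀ p ∈ F j,
      p.2.1 / Real.log p.2.1 ^ κ < |(p.2.2 : ℝ) + p.2.1 * Int.fract (p.1 * x)| := by
  obtain ⟨h, K, hh, hS⟩ := sball_fract μ hμ
  have hh' : (1:ℝ) ≤ h := by exact_mod_cast hh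
  obtain ⟨κ, hκ⟩ : ∃ κ : ℕ, κ = ⌈(((D:ℝ) + 2) * (2 * h) + 1) / δ⌉₊ := ⟨_, rfl⟩
  have hκ1 : ((D:ℝ) + 2) * (2 * h) + 1 ≤ δ * κ := by
    have : (((D:ℝ) + 2) * (2 * h) + 1) / δ ≤ κ := by rw [hκ]; exact Nat.le_ceil _
    rw [div_le_iff₀ hδ] at this
    linarith
  refine ⟨κ, ?_⟩
  have key := bc μ F (fun p => {x | |(p.2.2 : ℝ) + p.2.1 * Int.fract (p.1 * x)| ≤ p.2.1 / Real.log p.2.1 ^ κ}) D (by
    filter_upwards [hF, eventually_ge_atTop (⌈2 * h * |K|⌉₊ + 4 * h + 1)] with j hj hjj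
    refine ⟨hj.1, fun p hp => ?_⟩
    obtain ⟨h1, h2⟩ := hj.2 p hp
    have hjr : ((⌈2 * h * |K|⌉₊ + 4 * h + 1 : ℕ) : ℝ) ≤ j := by exact_mod_cast hjj
    push_cast at hjr
    have hceil : 2 * h * |K| ≤ ⌈2 * h * |K|⌉₊ := Nat.le_ceil _
    have hceil0 : (0:ℝ) ≤ ⌈2 * h * |K|⌉₊ := Nat.cast_nonneg _
    have hj1 : (1:ℝ) ≤ j := by nlinarith
    have hj0 : (0:ℝ) < j := by linarith
    have hM0 : 0 < p.2.1 := (Real.exp_pos _).trans_le h2
    have hL : (j:ℝ) ^ δ ≤ Real.log p.2.1 := by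
      rw [Real.le_log_iff_exp_le hM0]
      exact h2
    have hjδ : 0 < (j:ℝ) ^ δ := Real.rpow_pos_of_pos hj0 _
    have hL0 : 0 < Real.log p.2.1 := by linarith
    -- the logarithm is large
    have hLκ : (j:ℝ) ^ (((D:ℝ) + 2) * (2 * h) + 1) ≤ Real.log p.2.1 ^ κ := by
      calc (j:ℝ) ^ (((D:ℝ) + 2) * (2 * h) + 1) ≤ (j:ℝ) ^ (δ * κ) := Real.rpow_le_rpow_of_exponent_le hj1 hκ1
        _ = ((j:ℝ) ^ δ) ^ κ := by rw [Real.rpow_mul (by linarith), Real.rpow_natCast]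
        _ ≤ _ := pow_le_pow_left₀ hjδ.le hL _
    have e0 : (j:ℝ) ^ (((D:ℝ) + 2) * (2 * h) + 1) = (j:ℝ) ^ ((D + 2) * (2 * h)) * j := by
      have : ((D:ℝ) + 2) * (2 * h) + 1 = (((D + 2) * (2 * h) + 1 : ℕ) : ℝ) := by push_cast; ring
      rw [this, Real.rpow_natCast, pow_succ]
    rw [e0] at hLκ
    have hP1 : 1 ≤ (j:ℝ) ^ ((D + 2) * (2 * h)) := one_le_pow₀ hj1
    have hP0 : 0 < (j:ℝ) ^ ((D + 2) * (2 * h)) := by positivity
    set r : ℝ := 1 / Real.log p.2.1 ^ κ with hr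
    have hr0 : 0 < r := by positivity
    have hr1 : r * ((j:ℝ) ^ ((D + 2) * (2 * h)) * j) ≤ 1 := by
      rw [hr, div_mul_eq_mul_div, one_mul, div_le_one (by positivity)]
      exact hLκ
    have hprob : IsProbabilityMeasure (μ.map (fun x => Int.fract (p.1 * x))) :=
      Measure.isProbabilityMeasure_map (measurable_fract.comp (measurable_const.mul measurable_id)).aemeasurable
    have hrj : r * j ≤ 1 := by
      have : r * j ≤ r * ((j:ℝ) ^ ((D + 2) * (2 * h)) * j) := by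
        apply mul_le_mul_of_nonneg_left _ hr0.le
        nlinarith
      linarith
    have hS1 := (hS p.1 h1).single (-(p.2.2 : ℝ) / p.2.1) r hr0 (by nlinarith) hh
    rw [pow_zero, mul_one] at hS1
    have h3 : μ.real {x | |(p.2.2 : ℝ) + p.2.1 * Int.fract (p.1 * x)| ≤ p.2.1 / Real.log p.2.1 ^ κ} ≤
        (μ.map (fun x => Int.fract (p.1 * x))).real {y | |y - -(p.2.2 : ℝ) / p.2.1| ≤ r} := by
      apply ENNReal.toReal_mono (measure_ne_top _ _)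
      have hTm : Measurable (fun x : ℝ => Int.fract (p.1 * x)) := measurable_fract.comp (measurable_const.mul measurable_id)
      refine le_trans (measure_mono ?_) (Measure.le_map_apply hTm.aemeasurable _)
      intro x hx
      show |Int.fract (p.1 * x) - -(p.2.2 : ℝ) / p.2.1| ≤ r
      replace hx : |(p.2.2 : ℝ) + p.2.1 * Int.fract (p.1 * x)| ≤ p.2.1 / Real.log p.2.1 ^ κ := hx
      have e1 : (p.2.2 : ℝ) + p.2.1 * Int.fract (p.1 * x) = p.2.1 * (Int.fract (p.1 * x) - -(p.2.2 : ℝ) / p.2.1) := by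
        field_simp
        ring
      have e3 : p.2.1 / Real.log p.2.1 ^ κ = p.2.1 * r := by rw [hr]; ring
      rw [e1, abs_mul, abs_of_pos hM0, e3] at hx
      exact le_of_mul_le_mul_left hx hM0
    set m := (μ.map (fun x => Int.fract (p.1 * x))).real {y | |y - -(p.2.2 : ℝ) / p.2.1| ≤ r} with hm
    have hm0 : 0 ≤ m := measureReal_nonneg
    have h4 : m ^ (2 * h) ≤ (1 / (j:ℝ) ^ (D + 2)) ^ (2 * h) := by
      have e2 : (1 / (j:ℝ) ^ (D + 2)) ^ (2 * h) = 1 / (j:ℝ) ^ ((D + 2) * (2 * h)) := by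
        rw [div_pow, one_pow, ← pow_mul]
      rw [e2, le_div_iff₀ hP0]
      have h5 : K * (2 * h * r) ≤ (2 * h * |K|) * r := by
        have : K ≤ |K| := le_abs_self K
        nlinarith [mul_pos (by linarith : (0:ℝ) < h) hr0]
      calc m ^ (2 * h) * (j:ℝ) ^ ((D + 2) * (2 * h)) ≤ ((2 * h * |K|) * r) * (j:ℝ) ^ ((D + 2) * (2 * h)) :=
            mul_le_mul_of_nonneg_right (hS1.trans h5) hP0.le
        _ ≤ (j * r) * (j:ℝ) ^ ((D + 2) * (2 * h)) := by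
            apply mul_le_mul_of_nonneg_right _ hP0.le
            apply mul_le_mul_of_nonneg_right _ hr0.le
            nlinarith
        _ = r * ((j:ℝ) ^ ((D + 2) * (2 * h)) * j) := by ring
        _ ≤ 1 := hr1
    exact h3.trans (le_of_pow_le_pow_left₀ (by omega) (by positivity) h4))
  filter_upwards [key] with x hx
  filter_upwards [hx] with j hj p hp
  exact not_le.1 (hj p hp)

/-- All integers near the points `s + M {l x}`, for almost every `x`. -/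
theorem ae_block (μ : Measure ℝ) [IsProbabilityMeasure μ] (hμ : FourierDecay μ) (P : ℕ → Prop)
    (H : ∀ h B C κ U : ℕ, 1 ≤ h → ∃ N₀ : ℕ, ∀ N : ℕ, N₀ ≤ N → ∀ (ι : Type) [Fintype ι] (v : ι → ℤ),
      (∀ i, |v i| ≤ B * N) →
      (En h v : ℝ) * N ≤ Real.log N ^ C * (Fintype.card ι : ℝ) ^ (2 * h) →
      ∀ S : Finset ι, (∀ i ∈ S, 0 < v i ∧ (N : ℝ) ≤ v i * Real.log N ^ κ ∧ ¬ P (v i).toNat) →
        (S.card : ℝ) ≤ Fintype.card ι / Real.log N ^ U)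
    (F : ℕ → Finset (ℝ × ℝ × ℤ)) (δ : ℝ) (hδ : 0 < δ) (B₀ D : ℕ)
    (hF : ∀ᶠ j : ℕ in atTop, ((F j).card : ℝ) ≤ (j : ℝ) ^ D ∧ ∀ p ∈ F j, 1 ≤ p.1 ∧ Real.exp ((j:ℝ) ^ δ) ≤ p.2.1 ∧
      |(p.2.2 : ℝ)| ≤ B₀ * p.2.1) (W : ℕ) :
    ∀ᵐ x ∂μ, ∀ᶠ j : ℕ in atTop, ∀ p ∈ F j, ∀ q : ℕ,
      |(q:ℝ) - p.2.2 - p.2.1 * Int.fract (p.1 * x)| ≤ Real.log p.2.1 ^ W → P q := by
  obtain ⟨κ, hlarge⟩ := ae_large μ hμ F δ hδ D (by
    filter_upwards [hF] with j hj
    exact ⟨hj.1, fun p hp => ⟨(hj.2 p hp).1, (hj.2 p hp).2.1⟩⟩)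
  obtain ⟨h, K, hh, hS⟩ := sball_fract μ hμ
  obtain ⟨U, hU⟩ : ∃ U : ℕ, U = ⌈((D:ℝ) + 2) / δ⌉₊ := ⟨_, rfl⟩
  have hU1 : (D:ℝ) + 2 ≤ δ * U := by
    have : ((D:ℝ) + 2) / δ ≤ U := by rw [hU]; exact Nat.le_ceil _
    rw [div_le_iff₀ hδ] at this
    linarith
  have key := ae_fam μ h 0 K (κ := Unit) (fun _ _ => True)
    (fun N _ a => 0 < a → (N : ℝ) ≤ a * Real.log N ^ (κ + 1) → P a.toNat) 1 B₀ U W (by
      obtain ⟨N₀, h0⟩ := H h (1 + B₀ + 3) (0 + 2) (κ + 1) (U + W + 1) hh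
      refine ⟨N₀, fun N hN _ _ ι _ v hv hE S hS => h0 N hN ι v (fun i => ?_) hE S fun i hi => ?_⟩
      · have := hv i
        exact_mod_cast this
      · have h2 := hS i hi
        push Not at h2
        exact h2) F (fun p x => Int.fract (p.1 * x)) (fun p => p.2.1) (fun p => p.2.2) (fun _ => ()) δ hδ D hU1 (by
      filter_upwards [hF] with j hj
      refine ⟨hj.1, fun p hp => ?_⟩
      obtain ⟨q1, q2, q3⟩ := hj.2 p hp
      have hTm : Measurable (fun x : ℝ => Int.fract (p.1 * x)) := measurable_fract.comp (measurable_const.mul measurable_id)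
      refine ⟨hTm, hS p.1 q1, ?_, q2, q3, trivial⟩
      rw [map_measureReal_apply hTm measurableSet_Icc]
      have : (fun x : ℝ => Int.fract (p.1 * x)) ⁻¹' (Set.Icc (-((1:ℕ):ℝ)) ((1:ℕ):ℝ)) = Set.univ := by
        ext x
        simp only [Set.mem_preimage, Set.mem_Icc, Set.mem_univ, iff_true]
        have h1 := Int.fract_nonneg (p.1 * x)
        have h2 := Int.fract_lt_one (p.1 * x)
        push_cast
        constructor <;> linarith
      rw [this, probReal_univ]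
      norm_num)
  have hex : Tendsto (fun j : ℕ => Real.exp ((j:ℝ) ^ δ)) atTop atTop :=
    Real.tendsto_exp_atTop.comp ((tendsto_rpow_atTop hδ).comp tendsto_natCast_atTop_atTop)
  have hlo : (fun x : ℝ => Real.log x ^ (W + κ)) =o[atTop] (fun x : ℝ => x) := by
    have h0 := isLittleO_log_rpow_rpow_atTop (s := 1) ((W + κ : ℕ) : ℝ) (by norm_num)
    simp only [Real.rpow_natCast, Real.rpow_one] at h0
    exact h0
  obtain ⟨x0, hx0⟩ := eventually_atTop.1 ((hlo.def (c := 1 / 2) (by norm_num)).and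
    (((Real.tendsto_log_atTop.eventually_ge_atTop 4)).and (eventually_ge_atTop (1:ℝ))))
  filter_upwards [key, hlarge] with x hx hl
  filter_upwards [hx, hl, hF, hex.eventually_ge_atTop x0] with j h1 h2 h3 h4 p hp q hq
  obtain ⟨q1, q2, q3⟩ := h3.2 p hp
  obtain ⟨r1, r2, r3⟩ := hx0 p.2.1 (h4.trans q2)
  have hM0 : 0 < p.2.1 := by linarith
  have hL0 : 0 < Real.log p.2.1 := by linarith
  rw [Real.norm_eq_abs, Real.norm_eq_abs, abs_of_pos hM0, abs_of_nonneg (by positivity)] at r1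
  have h5 := h2 p hp
  have hfr0 := Int.fract_nonneg (p.1 * x)
  have hfr1 := Int.fract_lt_one (p.1 * x)
  -- `q` is large
  have hκ0 : 0 < Real.log p.2.1 ^ κ := by positivity
  have h6 : p.2.1 / Real.log p.2.1 ^ κ < q + Real.log p.2.1 ^ W := by
    refine h5.trans_le ?_
    have e : (p.2.2 : ℝ) + p.2.1 * Int.fract (p.1 * x) = q - (q - p.2.2 - p.2.1 * Int.fract (p.1 * x)) := by ring
    rw [e]
    refine (abs_sub _ _).trans ?_
    rw [abs_of_nonneg (Nat.cast_nonneg q : (0:ℝ) ≤ q)]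
    linarith
  have h7 : Real.log p.2.1 ^ W ≤ 1 / 2 * (p.2.1 / Real.log p.2.1 ^ κ) := by
    rw [pow_add] at r1
    have : Real.log p.2.1 ^ W = Real.log p.2.1 ^ W * Real.log p.2.1 ^ κ / Real.log p.2.1 ^ κ := by field_simp
    rw [this, ← mul_div_assoc]
    exact div_le_div_of_nonneg_right r1 hκ0.le
  have h8 : 1 / 2 * (p.2.1 / Real.log p.2.1 ^ κ) < q := by linarith
  have hq0 : (0:ℝ) < q := lt_of_le_of_lt (by positivity) h8
  have h9 := h1 p hp (by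
    simp only [Set.mem_Icc]
    push_cast
    constructor <;> linarith) (q : ℤ) (by push_cast; exact hq) (by exact_mod_cast hq0) (by
    have h10 : (⌈p.2.1⌉₊ : ℝ) < p.2.1 + 1 := Nat.ceil_lt_add_one hM0.le
    have h11 : Real.log p.2.1 ≤ Real.log ⌈p.2.1⌉₊ := Real.log_le_log hM0 (Nat.le_ceil _)
    have h12 : (⌈p.2.1⌉₊ : ℝ) ≤ 2 * p.2.1 := by linarith
    have h13 : p.2.1 < 2 * q * Real.log p.2.1 ^ κ := by
      have : 1 / 2 * (p.2.1 / Real.log p.2.1 ^ κ) = p.2.1 / (2 * Real.log p.2.1 ^ κ) := by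
        field_simp
      rw [this, div_lt_iff₀ (by positivity)] at h8
      linarith
    push_cast
    calc (⌈p.2.1⌉₊ : ℝ) ≤ 2 * (2 * q * Real.log p.2.1 ^ κ) := by linarith
      _ = q * (4 * Real.log p.2.1 ^ κ) := by ring
      _ ≤ q * (Real.log p.2.1 ^ κ * Real.log p.2.1) := by
          apply mul_le_mul_of_nonneg_left _ hq0.le
          nlinarith
      _ = q * Real.log p.2.1 ^ (κ + 1) := by rw [pow_succ]
      _ ≤ q * Real.log ⌈p.2.1⌉₊ ^ (κ + 1) :=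
          mul_le_mul_of_nonneg_left (pow_le_pow_left₀ hL0.le h11 _) hq0.le)
  simpa using h9

end Pool.Agent.U160.FD
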