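import Pool.Agent.U160.FD.Block

/-!
# Fractional parts of dilates: version with parameters and with data which depend on the scale
-/

set_option autoImplicit false

namespace Pool.Agent.U160.FD

open MeasureTheory Pool.Agent.TH935.GF Filter

/-- All integers near the points `s + M {l x}`, for almost every `x`; the hypothesis is needed only for certain
parameters which do not depend on `P`. -/
theorem ae_block2 (μ : Measure ℝ) [IsProbabilityMeasure μ] (hμ : FourierDecay μ)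
    (F : ℕ → Finset (ℝ × ℝ × ℤ)) (δ : ℝ) (hδ : 0 < δ) (B₀ D : ℕ)
    (hF : ∀ᶠ j : ℕ in atTop, ((F j).card : ℝ) ≤ (j : ℝ) ^ D ∧ ∀ p ∈ F j, 1 ≤ p.1 ∧ Real.exp ((j:ℝ) ^ δ) ≤ p.2.1 ∧
      |(p.2.2 : ℝ)| ≤ B₀ * p.2.1) (W : ℕ) :
    ∃ h B C κ U : ℕ, 1 ≤ h ∧ ∀ (τ : Type) (Adm : ℕ → τ → Prop) (Good : ℕ → τ → ℕ → Prop),
      (∃ N₀ : ℕ, ∀ N : ℕ, N₀ ≤ N → ∀ X : τ, Adm N X → ∀ (ι : Type) [Fintype ι] (v : ι → ℤ),
      (∀ i, |v i| ≤ B * N) →
      (En h v : ℝ) * N ≤ Real.log N ^ C * (Fintype.card ι : ℝ) ^ (2 * h) →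
      ∀ S : Finset ι, (∀ i ∈ S, 0 < v i ∧ (N : ℝ) ≤ v i * Real.log N ^ κ ∧ ¬ Good N X (v i).toNat) →
        (S.card : ℝ) ≤ Fintype.card ι / Real.log N ^ U) →
    ∀ X : ℝ × ℝ × ℤ → τ, (∀ᶠ j : ℕ in atTop, ∀ p ∈ F j, Adm ⌈p.2.1⌉₊ (X p)) →
    ∀ᵐ x ∂μ, ∀ᶠ j : ℕ in atTop, ∀ p ∈ F j, ∀ q : ℕ,
      |(q:ℝ) - p.2.2 - p.2.1 * Int.fract (p.1 * x)| ≤ Real.log p.2.1 ^ W → Good ⌈p.2.1⌉₊ (X p) q := by
  obtain ⟨κ, hlarge⟩ := ae_large μ hμ F δ hδ D (by
    filter_upwards [hF] with j hj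
    exact ⟨hj.1, fun p hp => ⟨(hj.2 p hp).1, (hj.2 p hp).2.1⟩⟩)
  obtain ⟨h, K, hh, hS⟩ := sball_fract μ hμ
  obtain ⟨U, hU⟩ : ∃ U : ℕ, U = ⌈((D:ℝ) + 2) / δ⌉₊ := ⟨_, rfl⟩
  have hU1 : (D:ℝ) + 2 ≤ δ * U := by
    have : ((D:ℝ) + 2) / δ ≤ U := by rw [hU]; exact Nat.le_ceil _
    rw [div_le_iff₀ hδ] at this
    linarith
  refine ⟨h, 1 + B₀ + 3, 0 + 2, κ + 1, U + W + 1, hh, fun τ Adm Good H X hX => ?_⟩
  have key := ae_fam μ h 0 K (κ := τ) Adm
    (fun N X a => 0 < a → (N : ℝ) ≤ a * Real.log N ^ (κ + 1) → Good N X a.toNat) 1 B₀ U W (by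
      obtain ⟨N₀, h0⟩ := H
      refine ⟨N₀, fun N hN X hX ι _ v hv hE S hS => h0 N hN X hX ι v (fun i => ?_) hE S fun i hi => ?_⟩
      · have := hv i
        exact_mod_cast this
      · have h2 := hS i hi
        push Not at h2
        exact h2) F (fun p x => Int.fract (p.1 * x)) (fun p => p.2.1) (fun p => p.2.2) X δ hδ D hU1 (by
      filter_upwards [hF, hX] with j hj hXj
      refine ⟨hj.1, fun p hp => ?_⟩
      obtain ⟨q1, q2, q3⟩ := hj.2 p hp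
      have hTm : Measurable (fun x : ℝ => Int.fract (p.1 * x)) := measurable_fract.comp (measurable_const.mul measurable_id)
      refine ⟨hTm, hS p.1 q1, ?_, q2, q3, hXj p hp⟩
      rw [map_measureReal_apply hTm measurableSet_Icc]
      have : (fun x : ℝ => Int.fract (p.1 * x)) ⁻¹' (Set.Icc (-((1:ℕ):ℝ)) ((1:ℕ):ℝ)) = Set.univ := by
        ext x
        simp only [Set.mem_preimage, Set.mem_Icc, Set.mem_univ, iff_true]
        have h1 := Int.fract_nonneg (p.1 * x)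
        have h2 := Int.fract_lt_one (p.1 * x)
        push_cast
        constructor <;> linarith
      rw [this, probReal_univ]
      norm_num)
  have hex : Tendsto (fun j : ℕ => Real.exp ((j:ℝ) ^ δ)) atTop atTop :=
    Real.tendsto_exp_atTop.comp ((tendsto_rpow_atTop hδ).comp tendsto_natCast_atTop_atTop)
  have hlo : (fun x : ℝ => Real.log x ^ (W + κ)) =o[atTop] (fun x : ℝ => x) := by
    have h0 := isLittleO_log_rpow_rpow_atTop (s := 1) ((W + κ : ℕ) : ℝ) (by norm_num)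
    simp only [Real.rpow_natCast, Real.rpow_one] at h0
    exact h0
  obtain ⟨x0, hx0⟩ := eventually_atTop.1 ((hlo.def (c := 1 / 2) (by norm_num)).and
    (((Real.tendsto_log_atTop.eventually_ge_atTop 4)).and (eventually_ge_atTop (1:ℝ))))
  filter_upwards [key, hlarge] with x hx hl
  filter_upwards [hx, hl, hF, hex.eventually_ge_atTop x0] with j h1 h2 h3 h4 p hp q hq
  obtain ⟨q1, q2, q3⟩ := h3.2 p hp
  obtain ⟨r1, r2, r3⟩ := hx0 p.2.1 (h4.trans q2)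
  have hM0 : 0 < p.2.1 := by linarith
  have hL0 : 0 < Real.log p.2.1 := by linarith
  rw [Real.norm_eq_abs, Real.norm_eq_abs, abs_of_pos hM0, abs_of_nonneg (by positivity)] at r1
  have h5 := h2 p hp
  have hfr0 := Int.fract_nonneg (p.1 * x)
  have hfr1 := Int.fract_lt_one (p.1 * x)
  -- `q` is large
  have hκ0 : 0 < Real.log p.2.1 ^ κ := by positivity
  have h6 : p.2.1 / Real.log p.2.1 ^ κ < q + Real.log p.2.1 ^ W := by
    refine h5.trans_le ?_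
    have e : (p.2.2 : ℝ) + p.2.1 * Int.fract (p.1 * x) = q - (q - p.2.2 - p.2.1 * Int.fract (p.1 * x)) := by ring
    rw [e]
    refine (abs_sub _ _).trans ?_
    rw [abs_of_nonneg (Nat.cast_nonneg q : (0:ℝ) ≤ q)]
    linarith
  have h7 : Real.log p.2.1 ^ W ≤ 1 / 2 * (p.2.1 / Real.log p.2.1 ^ κ) := by
    rw [pow_add] at r1
    have : Real.log p.2.1 ^ W = Real.log p.2.1 ^ W * Real.log p.2.1 ^ κ / Real.log p.2.1 ^ κ := by field_simp
    rw [this, ← mul_div_assoc]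
    exact div_le_div_of_nonneg_right r1 hκ0.le
  have h8 : 1 / 2 * (p.2.1 / Real.log p.2.1 ^ κ) < q := by linarith
  have hq0 : (0:ℝ) < q := lt_of_le_of_lt (by positivity) h8
  have h9 := h1 p hp (by
    simp only [Set.mem_Icc]
    push_cast
    constructor <;> linarith) (q : ℤ) (by push_cast; exact hq) (by exact_mod_cast hq0) (by
    have h10 : (⌈p.2.1⌉₊ : ℝ) < p.2.1 + 1 := Nat.ceil_lt_add_one hM0.le
    have h11 : Real.log p.2.1 ≤ Real.log ⌈p.2.1⌉₊ := Real.log_le_log hM0 (Nat.le_ceil _)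
    have h12 : (⌈p.2.1⌉₊ : ℝ) ≤ 2 * p.2.1 := by linarith
    have h13 : p.2.1 < 2 * q * Real.log p.2.1 ^ κ := by
      have : 1 / 2 * (p.2.1 / Real.log p.2.1 ^ κ) = p.2.1 / (2 * Real.log p.2.1 ^ κ) := by
        field_simp
      rw [this, div_lt_iff₀ (by positivity)] at h8
      linarith
    push_cast
    calc (⌈p.2.1⌉₊ : ℝ) ≤ 2 * (2 * q * Real.log p.2.1 ^ κ) := by linarith
      _ = q * (4 * Real.log p.2.1 ^ κ) := by ring
      _ ≤ q * (Real.log p.2.1 ^ κ * Real.log p.2.1) := by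
          apply mul_le_mul_of_nonneg_left _ hq0.le
          nlinarith
      _ = q * Real.log p.2.1 ^ (κ + 1) := by rw [pow_succ]
      _ ≤ q * Real.log ⌈p.2.1⌉₊ ^ (κ + 1) :=
          mul_le_mul_of_nonneg_left (pow_le_pow_left₀ hL0.le h11 _) hq0.le)
  simpa using h9

end Pool.Agent.U160.FD
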