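import Pool.Agent.U160.FD.SmallBall
import Pool.Agent.U160.FD.Defs

/-!
# Small ball estimate for the fractional parts of dilates
-/

set_option autoImplicit false

namespace Pool.Agent.U160.FD

open MeasureTheory Complex Set

/-- The small ball property of order `h`: the signed sums of `2 h` independent points are in a given small interval around
`0` with probability at most its length, up to a constant and a power of the logarithm. -/
def SBall (h c : ℕ) (K : ℝ) (μ : Measure ℝ) : Prop :=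
  ∀ r : ℝ, 0 < r → r ≤ 1 / 2 →
    (Measure.pi (fun _ : Fin h ⊕ Fin h => μ)).real {x | |sg h x| ≤ r} ≤ K * r * Real.log (1 / r) ^ c

/-- the kernel -/
noncomputable def fej (M : ℕ) (y : ℝ) : ℝ :=
  ∑ m ∈ Finset.range M, ∑ n ∈ Finset.range M, Real.cos (2 * Real.pi * ((m : ℝ) - n) * y)

lemma fej_eq (M : ℕ) (y : ℝ) : fej M y = (∑ m ∈ Finset.range M, Real.cos (2 * Real.pi * m * y)) ^ 2 +
    (∑ m ∈ Finset.range M, Real.sin (2 * Real.pi * m * y)) ^ 2 := by
  unfold fej
  rw [sq, sq, Finset.sum_mul_sum, Finset.sum_mul_sum, ← Finset.sum_add_distrib]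
  apply Finset.sum_congr rfl
  intro m _
  rw [← Finset.sum_add_distrib]
  apply Finset.sum_congr rfl
  intro n _
  rw [← Real.cos_sub]
  congr 1
  ring

lemma fej_nonneg (M : ℕ) (y : ℝ) : 0 ≤ fej M y := by
  rw [fej_eq]
  positivity

lemma fej_periodic (M : ℕ) (y : ℝ) (k : ℤ) : fej M (y - k) = fej M y := by
  unfold fej
  apply Finset.sum_congr rfl
  intro m _
  apply Finset.sum_congr rfl
  intro n _
  have h1 : 2 * Real.pi * ((m : ℝ) - n) * (y - k) = 2 * Real.pi * ((m : ℝ) - n) * y - (((m : ℤ) - n) * k : ℤ) * (2 * Real.pi) := by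
    push_cast
    ring
  rw [h1, Real.cos_sub_int_mul_two_pi]

lemma fej_ge (M : ℕ) (y : ℝ) (hy : |y| * (8 * M) ≤ 1) : (M : ℝ) ^ 2 / 4 ≤ fej M y := by
  rw [fej_eq]
  have h1 : (M : ℝ) / 2 ≤ ∑ m ∈ Finset.range M, Real.cos (2 * Real.pi * m * y) := by
    have h2 : ∀ m ∈ Finset.range M, (1 / 2 : ℝ) ≤ Real.cos (2 * Real.pi * m * y) := by
      intro m hm
      have hm' : (m : ℝ) ≤ M := by exact_mod_cast (Finset.mem_range.1 hm).le
      have h3 : |2 * Real.pi * m * y| ≤ 1 := by
        rw [abs_mul, abs_of_nonneg (by positivity : (0:ℝ) ≤ 2 * Real.pi * m)]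
        have h4 : Real.pi ≤ 4 := Real.pi_le_four
        have h5 : 0 ≤ |y| := abs_nonneg y
        calc 2 * Real.pi * m * |y| ≤ 2 * 4 * M * |y| := by gcongr
          _ = |y| * (8 * M) := by ring
          _ ≤ 1 := hy
      have h6 := Real.one_sub_sq_div_two_le_cos (x := 2 * Real.pi * m * y)
      have h7 : (2 * Real.pi * m * y) ^ 2 ≤ 1 := by
        rw [← sq_abs]
        exact pow_le_one₀ (abs_nonneg _) h3
      linarith
    calc (M : ℝ) / 2 = ∑ _m ∈ Finset.range M, (1 / 2 : ℝ) := by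
          rw [Finset.sum_const, Finset.card_range, nsmul_eq_mul]
          ring
      _ ≤ _ := Finset.sum_le_sum h2
  have h8 : ((M : ℝ) / 2) ^ 2 ≤ (∑ m ∈ Finset.range M, Real.cos (2 * Real.pi * m * y)) ^ 2 :=
    pow_le_pow_left₀ (by positivity) h1 2
  have h9 : 0 ≤ (∑ m ∈ Finset.range M, Real.sin (2 * Real.pi * m * y)) ^ 2 := sq_nonneg _
  have h10 : ((M : ℝ) / 2) ^ 2 = (M : ℝ) ^ 2 / 4 := by ring
  linarith

lemma sum_sq (k : ℕ) : ∑ n ∈ Finset.range k, 1 / ((n : ℝ) + 1) ^ 2 ≤ 2 := by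
  have hb : ∀ k : ℕ, ∑ n ∈ Finset.range k, 1 / ((n : ℝ) + 1) ^ 2 ≤ 2 - 2 / ((k : ℝ) + 1) := by
    intro k
    induction k with
    | zero => norm_num
    | succ k ih =>
      rw [Finset.sum_range_succ]
      have hk : (0:ℝ) ≤ k := Nat.cast_nonneg _
      have h2 : 1 / ((k : ℝ) + 1) ^ 2 ≤ 2 / ((k : ℝ) + 1) - 2 / (((k + 1 : ℕ) : ℝ) + 1) := by
        push_cast
        rw [div_sub_div _ _ (by positivity) (by positivity), div_le_div_iff₀ (by positivity) (by positivity)]
        nlinarith [mul_nonneg hk hk, mul_nonneg hk (mul_nonneg hk hk)]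
      linarith
  have h1 := hb k
  have h2 : 0 ≤ 2 / ((k : ℝ) + 1) := by positivity
  linarith

lemma sum_sq_inv (M : ℕ) (m : ℕ) (hm : m < M) :
    ∑ n ∈ Finset.range M, (if n = m then 0 else 1 / ((m : ℝ) - n) ^ 2) ≤ 4 := by
  have h1 : ∑ n ∈ Finset.range M, (if n = m then 0 else 1 / ((m : ℝ) - n) ^ 2) =
      ∑ n ∈ Finset.range m, 1 / ((m : ℝ) - n) ^ 2 + ∑ n ∈ Finset.Ico (m + 1) M, 1 / ((m : ℝ) - n) ^ 2 := by
    rw [← Finset.sum_range_add_sum_Ico _ hm.le, Finset.sum_eq_sum_Ico_succ_bot hm, if_pos rfl, zero_add]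
    congr 1
    · apply Finset.sum_congr rfl
      intro n hn
      rw [if_neg (by have := Finset.mem_range.1 hn; omega)]
    · apply Finset.sum_congr rfl
      intro n hn
      rw [if_neg (by have := Finset.mem_Ico.1 hn; omega)]
  have h2 : ∑ n ∈ Finset.range m, 1 / ((m : ℝ) - n) ^ 2 ≤ 2 := by
    rw [← Finset.sum_range_reflect]
    refine le_trans (le_of_eq ?_) (sum_sq m)
    apply Finset.sum_congr rfl
    intro n hn
    have hn' := Finset.mem_range.1 hn
    have e : ((m - 1 - n : ℕ) : ℝ) = m - 1 - n := by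
      rw [Nat.cast_sub (by omega), Nat.cast_sub (by omega)]
      norm_num
    rw [e]
    congr 2
    ring
  have h3 : ∑ n ∈ Finset.Ico (m + 1) M, 1 / ((m : ℝ) - n) ^ 2 ≤ 2 := by
    rw [Finset.sum_Ico_eq_sum_range]
    refine le_trans (le_of_eq ?_) (sum_sq (M - (m + 1)))
    apply Finset.sum_congr rfl
    intro n _
    push_cast
    congr 1
    ring
  rw [h1]
  linarith

/-- circle version of the small ball estimate -/
lemma circle_ball (μ : Measure ℝ) [IsProbabilityMeasure μ] (h : ℕ) (β K : ℝ) (hh : 2 ≤ β * (2 * h : ℕ))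
    (hd : ∀ t : ℝ, 1 ≤ t → ‖charFun μ t‖ ≤ K * t ^ (-β)) (l : ℝ) (hl : 1 ≤ l) (M : ℕ) (hM : 1 ≤ M) :
    (Measure.pi (fun _ : Fin h ⊕ Fin h => μ)).real {x | ∃ n : ℤ, |l * sg h x - n| * (8 * M) ≤ 1} ≤
      (4 + 16 * |K| ^ (2 * h)) / M := by
  set P := Measure.pi (fun _ : Fin h ⊕ Fin h => μ) with hP
  have hcs := continuous_sg h
  have hfc : Continuous (fun x => fej M (l * sg h x)) := by
    unfold fej
    fun_prop
  have hM0 : (0:ℝ) < M := by exact_mod_cast hM
  have hbd : ∀ x, |fej M (l * sg h x)| ≤ M * M := by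
    intro x
    unfold fej
    refine (Finset.abs_sum_le_sum_abs _ _).trans ?_
    calc ∑ m ∈ Finset.range M, |∑ n ∈ Finset.range M, Real.cos (2 * Real.pi * ((m : ℝ) - n) * (l * sg h x))| ≤
        ∑ _m ∈ Finset.range M, (M : ℝ) := by
          apply Finset.sum_le_sum
          intro m _
          refine (Finset.abs_sum_le_sum_abs _ _).trans ?_
          calc ∑ n ∈ Finset.range M, |Real.cos (2 * Real.pi * ((m : ℝ) - n) * (l * sg h x))| ≤
              ∑ _n ∈ Finset.range M, (1 : ℝ) := Finset.sum_le_sum fun n _ => Real.abs_cos_le_one _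
            _ = M := by simp
      _ = M * M := by rw [Finset.sum_const, Finset.card_range, nsmul_eq_mul]
  have hfi : Integrable (fun x => fej M (l * sg h x)) P := by
    apply Integrable.of_bound (C := (M:ℝ) * M) hfc.aestronglyMeasurable
    exact ae_of_all _ fun x => by rw [Real.norm_eq_abs]; exact hbd x
  have h1 : P.real {x | ∃ n : ℤ, |l * sg h x - n| * (8 * M) ≤ 1} * ((M : ℝ) ^ 2 / 4) ≤ ∫ x, fej M (l * sg h x) ∂P := by
    have hsub : {x | ∃ n : ℤ, |l * sg h x - n| * (8 * M) ≤ 1} ⊆ {x | (M : ℝ) ^ 2 / 4 ≤ fej M (l * sg h x)} := by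
      rintro x ⟨n, hn⟩
      have := fej_ge M _ hn
      rw [fej_periodic] at this
      exact this
    have h2 := mul_meas_ge_le_integral_of_nonneg (μ := P) (ae_of_all _ fun x => fej_nonneg M (l * sg h x)) hfi ((M : ℝ) ^ 2 / 4)
    have h3 : P.real {x | ∃ n : ℤ, |l * sg h x - n| * (8 * M) ≤ 1} ≤ P.real {x | (M : ℝ) ^ 2 / 4 ≤ fej M (l * sg h x)} :=
      measureReal_mono hsub (measure_ne_top _ _)
    calc _ ≤ P.real {x | (M : ℝ) ^ 2 / 4 ≤ fej M (l * sg h x)} * ((M : ℝ) ^ 2 / 4) :=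
          mul_le_mul_of_nonneg_right h3 (by positivity)
      _ = ((M : ℝ) ^ 2 / 4) * P.real {x | (M : ℝ) ^ 2 / 4 ≤ fej M (l * sg h x)} := mul_comm _ _
      _ ≤ _ := h2
  have hcos : ∀ a : ℝ, Integrable (fun x => Real.cos (a * (l * sg h x))) P := by
    intro a
    apply Integrable.of_bound (C := 1) (Continuous.aestronglyMeasurable (by fun_prop))
    exact ae_of_all _ fun x => by rw [Real.norm_eq_abs]; exact Real.abs_cos_le_one _
  have h2 : ∫ x, fej M (l * sg h x) ∂P = ∑ m ∈ Finset.range M, ∑ n ∈ Finset.range M,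
      ‖charFun μ (2 * Real.pi * ((m : ℝ) - n) * l)‖ ^ (2 * h) := by
    unfold fej
    rw [integral_finsetSum _ (fun m _ => integrable_finsetSum _ fun n _ => hcos _)]
    apply Finset.sum_congr rfl
    intro m _
    rw [integral_finsetSum _ (fun n _ => hcos _)]
    apply Finset.sum_congr rfl
    intro n _
    rw [← integral_cos_sg μ h]
    congr 1
    ext x
    congr 1
    ring
  have h3 : ∀ m ∈ Finset.range M, ∑ n ∈ Finset.range M,
      ‖charFun μ (2 * Real.pi * ((m : ℝ) - n) * l)‖ ^ (2 * h) ≤ 1 + 4 * |K| ^ (2 * h) := by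
    intro m hm
    have hm' := Finset.mem_range.1 hm
    have h4 : ∀ n ∈ Finset.range M, ‖charFun μ (2 * Real.pi * ((m : ℝ) - n) * l)‖ ^ (2 * h) ≤
        (if n = m then 1 else 0) + |K| ^ (2 * h) * (if n = m then 0 else 1 / ((m : ℝ) - n) ^ 2) := by
      intro n _
      by_cases hnm : n = m
      · rw [if_pos hnm, if_pos hnm, mul_zero, add_zero]
        exact pow_le_one₀ (norm_nonneg _) (norm_charFun_le_one _)
      · rw [if_neg hnm, if_neg hnm, zero_add]
        set t : ℝ := 2 * Real.pi * ((m : ℝ) - n) * l with ht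
        have hd1 : 1 ≤ |(m : ℝ) - n| := by
          have h5 : (1 : ℤ) ≤ |(m : ℤ) - n| := Int.one_le_abs (by omega)
          exact_mod_cast h5
        have habs : |(m : ℝ) - n| ≤ |t| := by
          rw [ht, abs_mul, abs_mul, abs_of_nonneg (by positivity : (0:ℝ) ≤ 2 * Real.pi), abs_of_nonneg (by linarith : (0:ℝ) ≤ l)]
          have h5 : 3 < Real.pi := Real.pi_gt_three
          have h6 : 0 ≤ |(m : ℝ) - n| := abs_nonneg _
          calc |(m : ℝ) - n| = 1 * |(m : ℝ) - n| * 1 := by ring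
            _ ≤ (2 * Real.pi) * |(m : ℝ) - n| * l := by
                apply mul_le_mul _ hl (by norm_num) (by positivity)
                apply mul_le_mul_of_nonneg_right _ h6
                linarith
        have hcf : ‖charFun μ t‖ = ‖charFun μ |t|‖ := by
          rcases abs_choice t with h5 | h5
          · rw [h5]
          · rw [h5, charFun_neg, RCLike.norm_conj]
        have ht1 : 1 ≤ |t| := hd1.trans habs
        have ht0 : 0 < |t| := by linarith
        have h7 : ‖charFun μ t‖ ≤ |K| * |t| ^ (-β) := by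
          rw [hcf]
          exact (hd _ ht1).trans (mul_le_mul_of_nonneg_right (le_abs_self K) (by positivity))
        calc ‖charFun μ t‖ ^ (2 * h) ≤ (|K| * |t| ^ (-β)) ^ (2 * h) := pow_le_pow_left₀ (norm_nonneg _) h7 _
          _ = |K| ^ (2 * h) * (|t| ^ (-β * (2 * h : ℕ))) := by
              rw [mul_pow, ← Real.rpow_natCast (|t| ^ (-β)), ← Real.rpow_mul ht0.le]
          _ ≤ |K| ^ (2 * h) * |t| ^ (-2:ℝ) := by
              apply mul_le_mul_of_nonneg_left _ (by positivity)
              apply Real.rpow_le_rpow_of_exponent_le ht1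
              linarith
          _ = |K| ^ (2 * h) * (1 / |t| ^ 2) := by
              congr 1
              rw [Real.rpow_neg ht0.le, one_div]
              norm_cast
          _ ≤ |K| ^ (2 * h) * (1 / ((m : ℝ) - n) ^ 2) := by
              apply mul_le_mul_of_nonneg_left _ (by positivity)
              rw [← sq_abs ((m : ℝ) - n)]
              apply one_div_le_one_div_of_le (by positivity)
              exact pow_le_pow_left₀ (abs_nonneg _) habs 2
    calc _ ≤ ∑ n ∈ Finset.range M, ((if n = m then 1 else 0) + |K| ^ (2 * h) * (if n = m then 0 else 1 / ((m : ℝ) - n) ^ 2)) :=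
          Finset.sum_le_sum h4
      _ = 1 + |K| ^ (2 * h) * ∑ n ∈ Finset.range M, (if n = m then 0 else 1 / ((m : ℝ) - n) ^ 2) := by
          rw [Finset.sum_add_distrib, ← Finset.mul_sum, Finset.sum_ite_eq' (Finset.range M) m, if_pos hm]
      _ ≤ 1 + |K| ^ (2 * h) * 4 := by
          have := sum_sq_inv M m hm'
          have h5 : 0 ≤ |K| ^ (2 * h) := by positivity
          nlinarith
      _ = _ := by ring
  have h4 : ∫ x, fej M (l * sg h x) ∂P ≤ M * (1 + 4 * |K| ^ (2 * h)) := by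
    rw [h2]
    calc _ ≤ ∑ _m ∈ Finset.range M, (1 + 4 * |K| ^ (2 * h)) := Finset.sum_le_sum h3
      _ = _ := by rw [Finset.sum_const, Finset.card_range, nsmul_eq_mul]
  have h5 := h1.trans h4
  rw [le_div_iff₀ hM0]
  have h6 : P.real {x | ∃ n : ℤ, |l * sg h x - n| * (8 * M) ≤ 1} * M * M ≤ (4 + 16 * |K| ^ (2 * h)) * M := by
    nlinarith [h5]
  exact le_of_mul_le_mul_right h6 hM0

/-- the fractional parts of all dilates have the small ball property with the same constants -/
theorem sball_fract (μ : Measure ℝ) [IsProbabilityMeasure μ] (hμ : FourierDecay μ) :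
    ∃ (h : ℕ) (K : ℝ), 1 ≤ h ∧ ∀ l : ℝ, 1 ≤ l → SBall h 0 K (μ.map (fun x => Int.fract (l * x))) := by
  obtain ⟨β, K, hβ, hd⟩ := hμ
  refine ⟨⌈1 / β⌉₊ + 1, 64 + 256 * |K| ^ (2 * (⌈1 / β⌉₊ + 1)), by omega, fun l hl r hr hr2 => ?_⟩
  set h := ⌈1 / β⌉₊ + 1 with hh
  have hβh : 2 ≤ β * (2 * h : ℕ) := by
    have h4 : 1 / β ≤ ⌈1 / β⌉₊ := Nat.le_ceil _
    rw [div_le_iff₀ hβ] at h4
    rw [hh]
    push_cast
    nlinarith
  have hTm : Measurable (fun x : ℝ => Int.fract (l * x)) := measurable_fract.comp (measurable_const.mul measurable_id)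
  have hprob : IsProbabilityMeasure (μ.map (fun x => Int.fract (l * x))) := Measure.isProbabilityMeasure_map hTm.aemeasurable
  rw [pow_zero, mul_one]
  have hK0 : 0 ≤ |K| ^ (2 * h) := by positivity
  by_cases hr8 : 8 * r ≤ 1
  · -- the number `M`
    obtain ⟨M, hM⟩ : ∃ M : ℕ, M = ⌊1 / (8 * r)⌋₊ := ⟨_, rfl⟩
    have h8r : 0 < 8 * r := by linarith
    have hM1 : 1 ≤ M := by
      rw [hM]
      apply Nat.le_floor
      rw [Nat.cast_one, le_div_iff₀ h8r]
      linarith
    have hM2 : (M : ℝ) ≤ 1 / (8 * r) := by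
      rw [hM]
      exact Nat.floor_le (by positivity)
    have hM3 : 1 / (8 * r) < M + 1 := by
      rw [hM]
      exact Nat.lt_floor_add_one _
    have hM1' : (1:ℝ) ≤ M := by exact_mod_cast hM1
    have hM4 : 1 / (M : ℝ) ≤ 16 * r := by
      rw [div_lt_iff₀ h8r] at hM3
      rw [div_le_iff₀ (by linarith)]
      nlinarith
    have h1 := circle_ball μ h β K hβh hd l hl M hM1
    have hpm : (Measure.pi (fun _ : Fin h ⊕ Fin h => μ.map (fun x => Int.fract (l * x)))) =
        (Measure.pi (fun _ : Fin h ⊕ Fin h => μ)).map (fun x i => Int.fract (l * x i)) :=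
      (Measure.pi_map_pi (fun _ => hTm.aemeasurable)).symm
    rw [hpm]
    have hTT : Measurable (fun (x : Fin h ⊕ Fin h → ℝ) i => Int.fract (l * x i)) :=
      measurable_pi_lambda _ fun i => hTm.comp (measurable_pi_apply i)
    have hmset : MeasurableSet {x : Fin h ⊕ Fin h → ℝ | |sg h x| ≤ r} := (continuous_sg h).abs.measurable measurableSet_Iic
    rw [map_measureReal_apply hTT hmset]
    refine (measureReal_mono ?_ (measure_ne_top _ _)).trans (h1.trans ?_)
    · intro x hx
      simp only [mem_preimage, mem_setOf_eq] at hx ⊢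
      refine ⟨∑ j, ⌊l * x (Sum.inl j)⌋ - ∑ j, ⌊l * x (Sum.inr j)⌋, ?_⟩
      have e : l * sg h x - ((∑ j, ⌊l * x (Sum.inl j)⌋ - ∑ j, ⌊l * x (Sum.inr j)⌋ : ℤ) : ℝ) =
          sg h (fun i => Int.fract (l * x i)) := by
        unfold sg Int.fract
        push_cast
        rw [Finset.sum_sub_distrib, Finset.sum_sub_distrib, ← Finset.mul_sum, ← Finset.mul_sum]
        ring
      rw [e]
      have h2 : |sg h (fun i => Int.fract (l * x i))| * (8 * M) ≤ r * (8 * (1 / (8 * r))) := by
        apply mul_le_mul hx _ (by positivity) hr.le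
        linarith
      have h3 : r * (8 * (1 / (8 * r))) = 1 := by field_simp
      linarith
    · calc (4 + 16 * |K| ^ (2 * h)) / M = (4 + 16 * |K| ^ (2 * h)) * (1 / M) := by ring
        _ ≤ (4 + 16 * |K| ^ (2 * h)) * (16 * r) := mul_le_mul_of_nonneg_left hM4 (by positivity)
        _ = _ := by ring
  · have h1 : (Measure.pi (fun _ : Fin h ⊕ Fin h => μ.map (fun x => Int.fract (l * x)))).real {x | |sg h x| ≤ r} ≤ 1 :=
      measureReal_le_one
    have h2 : 1 ≤ (64 + 256 * |K| ^ (2 * h)) * r := by nlinarith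
    linarith

end Pool.Agent.U160.FD
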