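import Pool.Agent.U160.FD.Block
import Pool.Agent.U160.FD.Wrap

/-!
# Blocks of digits
-/

set_option autoImplicit false

namespace Pool.Agent.U160.FD

open MeasureTheory Filter

/-- The integer whose digits in base `b` are the digits of `x` at the places `i + 1, …, j` after the point: the residue
of `⌊b ^ j x⌋` modulo `b ^ (j - i)`. -/
noncomputable def block (b : ℕ) (x : ℝ) (i j : ℕ) : ℕ := (⌊(b : ℝ) ^ j * x⌋ % (b : ℤ) ^ (j - i)).toNat

lemma block_close (b : ℕ) (hb : 2 ≤ b) (x : ℝ) (j k : ℕ) (hk : k ≤ j) :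
    |(block b x (j - k) j : ℝ) - (b : ℝ) ^ k * Int.fract ((b : ℝ) ^ (j - k) * x)| ≤ 1 := by
  have hb0 : (0 : ℤ) < (b : ℤ) ^ k := by positivity
  have hbr : (0 : ℝ) < (b : ℝ) ^ k := by positivity
  obtain ⟨u, hu⟩ : ∃ u, u = (b : ℝ) ^ (j - k) * x := ⟨_, rfl⟩
  have e1 : (b : ℝ) ^ j * x = (b : ℝ) ^ k * u := by
    rw [hu, ← mul_assoc, ← pow_add]
    congr 2
    omega
  have e2 : j - (j - k) = k := by omega
  have h1 := Int.fract_nonneg u
  have h2 := Int.fract_lt_one u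
  have e3 : (b : ℝ) ^ k * u = (((b : ℤ) ^ k * ⌊u⌋ : ℤ) : ℝ) + (b : ℝ) ^ k * Int.fract u := by
    push_cast
    rw [← mul_add, Int.floor_add_fract]
  have e4 : ⌊(b : ℝ) ^ k * u⌋ = (b : ℤ) ^ k * ⌊u⌋ + ⌊(b : ℝ) ^ k * Int.fract u⌋ := by
    rw [e3, Int.floor_intCast_add]
  have h3 : 0 ≤ ⌊(b : ℝ) ^ k * Int.fract u⌋ := Int.floor_nonneg.2 (by positivity)
  have h4 : ⌊(b : ℝ) ^ k * Int.fract u⌋ < (b : ℤ) ^ k := by
    rw [Int.floor_lt]
    push_cast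
    nlinarith
  have e5 : ⌊(b : ℝ) ^ j * x⌋ % (b : ℤ) ^ k = ⌊(b : ℝ) ^ k * Int.fract u⌋ := by
    rw [e1, e4, Int.add_comm, Int.add_mul_emod_self_left, Int.emod_eq_of_lt h3 h4]
  have e6 : (block b x (j - k) j : ℝ) = ⌊(b : ℝ) ^ k * Int.fract u⌋ := by
    unfold block
    rw [e2, e5]
    have : ((⌊(b : ℝ) ^ k * Int.fract u⌋.toNat : ℕ) : ℤ) = ⌊(b : ℝ) ^ k * Int.fract u⌋ := Int.toNat_of_nonneg h3
    exact_mod_cast this
  rw [e6, ← hu]
  have h5 := Int.floor_le ((b : ℝ) ^ k * Int.fract u)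
  have h6 := Int.lt_floor_add_one ((b : ℝ) ^ k * Int.fract u)
  rw [abs_le]
  constructor <;> linarith

open Classical in
/-- the finite sets of parameters for the blocks of digits -/
noncomputable def blockF (b : ℕ) (η : ℝ) (j : ℕ) : Finset (ℝ × ℝ × ℤ) :=
  ((Finset.range (j + 1)).filter (fun k : ℕ => (j : ℝ) ^ η ≤ k)).image (fun k : ℕ => ((b : ℝ) ^ (j - k), (b : ℝ) ^ k, (0 : ℤ)))

lemma blockF_ok (b : ℕ) (hb : 2 ≤ b) (η : ℝ) (hη : 0 < η) :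
    ∀ᶠ j : ℕ in atTop, ((blockF b η j).card : ℝ) ≤ (j : ℝ) ^ 2 ∧ ∀ p ∈ blockF b η j, 1 ≤ p.1 ∧
      Real.exp ((j:ℝ) ^ (η / 2)) ≤ p.2.1 ∧ |(p.2.2 : ℝ)| ≤ (0 : ℕ) * p.2.1 := by
  classical
  have ht : Tendsto (fun j : ℕ => (j:ℝ) ^ (η / 2)) atTop atTop :=
    (tendsto_rpow_atTop (by linarith)).comp tendsto_natCast_atTop_atTop
  filter_upwards [ht.eventually_ge_atTop 2, eventually_ge_atTop 2] with j h1 h2
  have hj2 : (2:ℝ) ≤ j := by exact_mod_cast h2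
  have hj0 : (0:ℝ) < j := by linarith
  have hb1 : (1:ℝ) ≤ b := by exact_mod_cast (by omega : 1 ≤ b)
  constructor
  · have h3 : ((blockF b η j).card : ℝ) ≤ j + 1 := by
      have : (blockF b η j).card ≤ j + 1 := by
        unfold blockF
        refine Finset.card_image_le.trans ((Finset.card_filter_le _ _).trans ?_)
        rw [Finset.card_range]
      exact_mod_cast this
    nlinarith
  · intro p hp
    unfold blockF at hp
    rw [Finset.mem_image] at hp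
    obtain ⟨k, hk, rfl⟩ := hp
    rw [Finset.mem_filter, Finset.mem_range] at hk
    refine ⟨one_le_pow₀ hb1, ?_, by simp⟩
    simp only
    have h3 : (j:ℝ) ^ η = (j:ℝ) ^ (η / 2) * (j:ℝ) ^ (η / 2) := by
      rw [← Real.rpow_add hj0]
      congr 1
      ring
    have h4 : (j:ℝ) ^ (η / 2) ≤ k * Real.log b := by
      have h5 : Real.log 2 ≤ Real.log b := Real.log_le_log (by norm_num) (by exact_mod_cast hb)
      have h6 := Real.log_two_gt_d9
      have h7 := hk.2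
      rw [h3] at h7
      have h8 : (0:ℝ) < (j:ℝ) ^ (η / 2) := by linarith
      have h9 : (0:ℝ) ≤ k := Nat.cast_nonneg _
      calc (j:ℝ) ^ (η / 2) ≤ ((j:ℝ) ^ (η / 2) * (j:ℝ) ^ (η / 2)) * (1 / 2) := by nlinarith
        _ ≤ k * (1 / 2) := mul_le_mul_of_nonneg_right h7 (by norm_num)
        _ ≤ k * Real.log b := mul_le_mul_of_nonneg_left (by linarith) h9
    calc Real.exp ((j:ℝ) ^ (η / 2)) ≤ Real.exp (k * Real.log b) := Real.exp_le_exp.2 h4
      _ = (b:ℝ) ^ k := by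
          rw [Real.exp_nat_mul, Real.exp_log (by linarith)]

lemma block_use (b : ℕ) (hb : 2 ≤ b) (η : ℝ) (hη : 0 < η) (W : ℕ) :
    ∀ᶠ j : ℕ in atTop, ∀ (x : ℝ) (P : ℕ → Prop), (∀ p ∈ blockF b η j, ∀ q : ℕ,
      |(q:ℝ) - p.2.2 - p.2.1 * Int.fract (p.1 * x)| ≤ Real.log p.2.1 ^ (W + 2) → P q) →
      ∀ k : ℕ, k ≤ j → (j : ℝ) ^ η ≤ k → ∀ q : ℕ, |(q:ℝ) - block b x (j - k) j| ≤ (k:ℝ) ^ W → P q := by
  classical
  have ht : Tendsto (fun j : ℕ => (j:ℝ) ^ η) atTop atTop :=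
    (tendsto_rpow_atTop hη).comp tendsto_natCast_atTop_atTop
  filter_upwards [ht.eventually_ge_atTop (2 ^ (W + 3) : ℝ)] with j h1 x P hP k hk hkη q hq
  have hk1 : (2:ℝ) ^ (W + 3) ≤ k := h1.trans hkη
  have hk8 : (1:ℝ) ≤ k := le_trans (one_le_pow₀ (by norm_num)) hk1
  refine hP ((b : ℝ) ^ (j - k), (b : ℝ) ^ k, (0 : ℤ)) ?_ q ?_
  · unfold blockF
    rw [Finset.mem_image]
    exact ⟨k, Finset.mem_filter.2 ⟨Finset.mem_range.2 (by omega), hkη⟩, rfl⟩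
  · simp only [Int.cast_zero, sub_zero]
    have h2 := block_close b hb x j k hk
    have h3 : |(q:ℝ) - (b : ℝ) ^ k * Int.fract ((b : ℝ) ^ (j - k) * x)| ≤ (k:ℝ) ^ W + 1 := by
      have e : (q:ℝ) - (b : ℝ) ^ k * Int.fract ((b : ℝ) ^ (j - k) * x) = (q - block b x (j - k) j) +
        (block b x (j - k) j - (b : ℝ) ^ k * Int.fract ((b : ℝ) ^ (j - k) * x)) := by ring
      rw [e]
      exact (abs_add_le _ _).trans (by linarith)
    refine h3.trans ?_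
    rw [Real.log_pow]
    have h5 : Real.log 2 ≤ Real.log b := Real.log_le_log (by norm_num) (by exact_mod_cast hb)
    have h6 := Real.log_two_gt_d9
    have h7 : (k:ℝ) / 2 ≤ k * Real.log b := by
      have : (k:ℝ) * (1 / 2) ≤ k * Real.log b := mul_le_mul_of_nonneg_left (by linarith) (by linarith)
      linarith
    have h8 : ((k:ℝ) / 2) ^ (W + 2) ≤ (k * Real.log b) ^ (W + 2) := pow_le_pow_left₀ (by linarith) h7 _
    refine le_trans ?_ h8
    have h9 : (1:ℝ) ≤ (k:ℝ) ^ W := one_le_pow₀ hk8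
    have e9 : ((k:ℝ) / 2) ^ (W + 2) = (k:ℝ) ^ W * ((k:ℝ) ^ 2 / 2 ^ (W + 2)) := by
      rw [div_pow, pow_add (k:ℝ)]
      ring
    rw [e9]
    have h10 : (2:ℝ) ≤ (k:ℝ) ^ 2 / 2 ^ (W + 2) := by
      rw [le_div_iff₀ (by positivity)]
      have : (2:ℝ) ^ (W + 3) = 2 * 2 ^ (W + 2) := by ring
      nlinarith
    nlinarith

end Pool.Agent.U160.FD
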