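import Pool.Agent.U160.FD.Digits

/-!
# Blocks of digits: general form
-/

set_option autoImplicit false

namespace Pool.Agent.U160.FD

open MeasureTheory Filter Pool.Agent.TH935.GF

/-- blocks of digits, in all bases at once -/
theorem digits_of (μ : Measure ℝ) [IsProbabilityMeasure μ] (hμ : FourierDecay μ) (P : ℕ → Prop)
    (H : ∀ h B C κ U : ℕ, 1 ≤ h → ∃ N₀ : ℕ, ∀ N : ℕ, N₀ ≤ N → ∀ (ι : Type) [Fintype ι] (v : ι → ℤ),
      (∀ i, |v i| ≤ B * N) →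
      (En h v : ℝ) * N ≤ Real.log N ^ C * (Fintype.card ι : ℝ) ^ (2 * h) →
      ∀ S : Finset ι, (∀ i ∈ S, 0 < v i ∧ (N : ℝ) ≤ v i * Real.log N ^ κ ∧ ¬ P (v i).toNat) →
        (S.card : ℝ) ≤ Fintype.card ι / Real.log N ^ U) :
    ∀ᵐ x ∂μ, ∀ b : ℕ, 2 ≤ b → ∀ η : ℝ, 0 < η → ∀ W : ℕ,
      ∀ᶠ j : ℕ in atTop, ∀ k : ℕ, k ≤ j → (j : ℝ) ^ η ≤ k → ∀ q : ℕ,
        |(q:ℝ) - block b x (j - k) j| ≤ (k:ℝ) ^ W → P q := by
  have h1 : ∀ᵐ x ∂μ, ∀ b n W : ℕ, 2 ≤ b →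
      ∀ᶠ j : ℕ in atTop, ∀ k : ℕ, k ≤ j → (j : ℝ) ^ (1 / ((n:ℝ) + 1)) ≤ k → ∀ q : ℕ,
        |(q:ℝ) - block b x (j - k) j| ≤ (k:ℝ) ^ W → P q := by
    rw [ae_all_iff]
    intro b
    rw [ae_all_iff]
    intro n
    rw [ae_all_iff]
    intro W
    by_cases hb : 2 ≤ b
    · have hη : (0:ℝ) < 1 / ((n:ℝ) + 1) := by positivity
      filter_upwards [ae_block μ hμ P H (blockF b (1 / ((n:ℝ) + 1))) (1 / ((n:ℝ) + 1) / 2) (by positivity) 0 2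
        (blockF_ok b hb _ hη) (W + 2)] with x hx _
      filter_upwards [hx, block_use b hb _ hη W] with j h2 h3
      exact h3 x P h2
    · exact ae_of_all _ fun x h => absurd h hb
  filter_upwards [h1] with x hx b hb η hη W
  obtain ⟨n, hn⟩ := exists_nat_one_div_lt hη
  filter_upwards [hx b n W hb, eventually_ge_atTop 1] with j h2 hj1 k hk hkη q hd
  refine h2 k hk (le_trans ?_ hkη) q hd
  exact Real.rpow_le_rpow_of_exponent_le (by exact_mod_cast hj1) hn.le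

end Pool.Agent.U160.FD
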