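import Pool.Agent.U160.FD.Wrap
import Pool.Agent.TH935.GF

/-!
# Goldbach pairs near the dilates of almost every point
-/

set_option autoImplicit false

namespace Pool.Agent.U160.FD

open MeasureTheory Filter

theorem gold (μ : Measure ℝ) [IsProbabilityMeasure μ] (hμ : FourierSmall μ) (P : ℕ → Prop) (A m₀ : ℕ) (ε : ℝ)
    (hε : 0 < ε) (hP : ∀ m : ℕ, m₀ ≤ m → 2 ∣ m → Pool.Agent.W93.PG.WinP ε A m → P m)
    (lam : ℕ → ℝ) (δ : ℝ) (hδ : 0 < δ) (hlam : ∀ᶠ j : ℕ in atTop, Real.exp ((j:ℝ) ^ δ) ≤ lam j) (W : ℕ) :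
    ∀ᵐ x ∂μ, 0 < x → ∀ᶠ j : ℕ in atTop, ∀ m : ℕ, Even m → |(m:ℝ) - lam j * x| ≤ Real.log (lam j) ^ W → P m := by
  have key := ae_pos μ hμ (fun m => Even m → P m) (by
    intro h C U hh
    obtain ⟨N₀, h0⟩ := Pool.Agent.TH935.GF.transfer h 1 C U P (fun B C U =>
      Pool.Agent.TH935.GF.fam_win h B C A U m₀ hh ε hε P hP)
    refine ⟨N₀, fun N hN ι _ v hv hE S hS => h0 N hN ι v (fun i => ?_) hE S fun i hi => ?_⟩
    · have := (abs_le.1 (hv i)).2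
      push_cast
      linarith
    · obtain ⟨h1, _, h3⟩ := hS i hi
      push Not at h3
      refine ⟨h1, ?_, h3.2⟩
      have h4 : (((v i).toNat : ℕ) : ℤ) = v i := Int.toNat_of_nonneg h1.le
      rw [← h4]
      exact_mod_cast h3.1) lam δ hδ hlam W
  filter_upwards [key] with x hx hx0
  filter_upwards [hx hx0] with j hj m hm hd
  exact hj m hd hm

lemma winP_mono {ε ε' : ℝ} (h : ε ≤ ε') {A m : ℕ} (hw : Pool.Agent.W93.PG.WinP ε A m) :
    Pool.Agent.W93.PG.WinP ε' A m := by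
  intro y₁ y₂ h1 h2 h3
  refine (hw y₁ y₂ h1 h2 h3).trans (mul_le_mul_of_nonneg_right h ?_)
  have h4 : (0:ℝ) < (y₂ : ℝ) - y₁ := by
    have : (y₁ : ℝ) < y₂ := by exact_mod_cast h1
    linarith
  have h5 := Pool.Agent.W93.GB.one_le_sing m
  have h6 : 0 ≤ Pool.Agent.H560R3.GB.sing m := by linarith
  positivity

/-- all parameters at once -/
theorem gold_main (μ : Measure ℝ) [IsProbabilityMeasure μ] (hμ : FourierSmall μ)
    (lam : ℕ → ℝ) (δ : ℝ) (hδ : 0 < δ) (hlam : ∀ᶠ j : ℕ in atTop, Real.exp ((j:ℝ) ^ δ) ≤ lam j) :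
    ∀ᵐ x ∂μ, 0 < x → ∀ (P : ℕ → Prop) (A W m₀ : ℕ) (ε : ℝ), 0 < ε →
      (∀ m : ℕ, m₀ ≤ m → 2 ∣ m → Pool.Agent.W93.PG.WinP ε A m → P m) →
      ∀ᶠ j : ℕ in atTop, ∀ m : ℕ, Even m → |(m:ℝ) - lam j * x| ≤ Real.log (lam j) ^ W → P m := by
  have h1 : ∀ᵐ x ∂μ, ∀ A W k m₀ : ℕ, 0 < x → ∀ᶠ j : ℕ in atTop, ∀ m : ℕ, Even m →
      |(m:ℝ) - lam j * x| ≤ Real.log (lam j) ^ W → m₀ ≤ m ∧ Pool.Agent.W93.PG.WinP (1 / ((k:ℝ) + 1)) A m := by
    rw [ae_all_iff]; intro A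
    rw [ae_all_iff]; intro W
    rw [ae_all_iff]; intro k
    rw [ae_all_iff]; intro m₀
    -- first the size of `m`
    have h2 := ae_pos μ hμ (fun m => m₀ ≤ m) (by
      intro h C U hh
      have hlog : Tendsto (fun N : ℕ => Real.log (N:ℝ)) atTop atTop :=
        Real.tendsto_log_atTop.comp tendsto_natCast_atTop_atTop
      have hlo : (fun x : ℝ => Real.log x ^ 2) =o[atTop] (fun x : ℝ => x) := by
        have := isLittleO_log_rpow_rpow_atTop (s := 1) (2 : ℝ) (by norm_num)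
        simpa using this
      have hlo1 := hlo.def (c := 1 / ((m₀:ℝ) + 1)) (by positivity)
      obtain ⟨N₀, h0⟩ := eventually_atTop.1 (tendsto_natCast_atTop_atTop.eventually hlo1)
      refine ⟨N₀ + 1, fun N hN ι _ v hv hE S hS => ?_⟩
      have hSe : S = ∅ := by
        rw [Finset.eq_empty_iff_forall_notMem]
        intro i hi
        obtain ⟨a1, a2, a3⟩ := hS i hi
        rw [not_le] at a3
        have a4 : (((v i).toNat : ℕ) : ℤ) = v i := Int.toNat_of_nonneg a1.le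
        have a5 : (v i : ℝ) < m₀ := by
          rw [← a4]
          exact_mod_cast a3
        have a6 := h0 N (by omega)
        have hN0 : (0:ℝ) < N := by exact_mod_cast (by omega : 0 < N)
        rw [Real.norm_eq_abs, Real.norm_eq_abs, abs_of_nonneg (sq_nonneg _), abs_of_pos hN0] at a6
        have a7 : (N:ℝ) ≤ m₀ * (1 / ((m₀:ℝ) + 1) * N) := by
          refine a2.trans ?_
          apply mul_le_mul a5.le a6 (sq_nonneg _) (Nat.cast_nonneg _)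
        have a8 : (m₀:ℝ) * (1 / ((m₀:ℝ) + 1) * N) < N := by
          have : (m₀:ℝ) * (1 / ((m₀:ℝ) + 1) * N) = (m₀:ℝ) / (m₀ + 1) * N := by ring
          rw [this]
          have b1 : (m₀:ℝ) / (m₀ + 1) < 1 := by
            rw [div_lt_one (by positivity)]
            linarith
          nlinarith
        linarith
      rw [hSe]
      simp only [Finset.card_empty, Nat.cast_zero]
      have : 0 ≤ Real.log N ^ U := by
        apply pow_nonneg
        exact Real.log_natCast_nonneg _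
      positivity) lam δ hδ hlam W
    have h3 := gold μ hμ (Pool.Agent.W93.PG.WinP (1 / ((k:ℝ) + 1)) A) A 0 (1 / ((k:ℝ) + 1)) (by positivity)
      (fun m _ _ h => h) lam δ hδ hlam W
    filter_upwards [h2, h3] with x hx2 hx3 hx0
    filter_upwards [hx2 hx0, hx3 hx0] with j hj2 hj3 m hm hd
    exact ⟨hj2 m hd, hj3 m hm hd⟩
  filter_upwards [h1] with x hx hx0 P A W m₀ ε hε hP
  obtain ⟨k, hk⟩ := exists_nat_one_div_lt hε
  filter_upwards [hx A W k m₀ hx0] with j hj m hm hd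
  obtain ⟨h4, h5⟩ := hj m hm hd
  exact hP m h4 hm.two_dvd (winP_mono hk.le h5)

/-- all bases at once -/
theorem gold_bases (μ : Measure ℝ) [IsProbabilityMeasure μ] (hμ : FourierSmall μ) :
    ∀ᵐ x ∂μ, 0 < x → ∀ b : ℕ, 2 ≤ b → ∀ (P : ℕ → Prop) (A W m₀ : ℕ) (ε : ℝ), 0 < ε →
      (∀ m : ℕ, m₀ ≤ m → 2 ∣ m → Pool.Agent.W93.PG.WinP ε A m → P m) →
      ∀ᶠ j : ℕ in atTop, ∀ m : ℕ, Even m → |(m:ℝ) - (b:ℝ) ^ j * x| ≤ (j:ℝ) ^ W → P m := by
  have h1 : ∀ᵐ x ∂μ, ∀ b : ℕ, 2 ≤ b → 0 < x → ∀ (P : ℕ → Prop) (A W m₀ : ℕ) (ε : ℝ), 0 < ε →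
      (∀ m : ℕ, m₀ ≤ m → 2 ∣ m → Pool.Agent.W93.PG.WinP ε A m → P m) →
      ∀ᶠ j : ℕ in atTop, ∀ m : ℕ, Even m → |(m:ℝ) - (b:ℝ) ^ j * x| ≤ Real.log ((b:ℝ) ^ j) ^ W → P m := by
    rw [ae_all_iff]
    intro b
    by_cases hb : 2 ≤ b
    · filter_upwards [gold_main μ hμ (fun j => (b:ℝ) ^ j) (1 / 2) (by norm_num) (exp_le_pow b hb)] with x hx _
      exact hx
    · exact ae_of_all _ fun x h => absurd h hb
  filter_upwards [h1] with x hx hx0 b hb P A W m₀ ε hε hP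
  filter_upwards [hx b hb hx0 P A (W + 1) m₀ ε hε hP, pow_le_log b W hb] with j hj1 hj2 m hm hd
  exact hj1 m hm (hd.trans hj2)

end Pool.Agent.U160.FD
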