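import Pool.Agent.U160.FD.Digits
import Pool.Agent.U160.FD.Gold

/-!
# Goldbach pairs near the points `s + M {l x}`
-/

set_option autoImplicit false

namespace Pool.Agent.U160.FD

open MeasureTheory Filter

theorem gold_block (μ : Measure ℝ) [IsProbabilityMeasure μ] (hμ : FourierDecay μ)
    (F : ℕ → Finset (ℝ × ℝ × ℤ)) (δ : ℝ) (hδ : 0 < δ) (B₀ D : ℕ)
    (hF : ∀ᶠ j : ℕ in atTop, ((F j).card : ℝ) ≤ (j : ℝ) ^ D ∧ ∀ p ∈ F j, 1 ≤ p.1 ∧ Real.exp ((j:ℝ) ^ δ) ≤ p.2.1 ∧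
      |(p.2.2 : ℝ)| ≤ B₀ * p.2.1) :
    ∀ᵐ x ∂μ, ∀ (P : ℕ → Prop) (A W m₀ : ℕ) (ε : ℝ), 0 < ε →
      (∀ m : ℕ, m₀ ≤ m → 2 ∣ m → Pool.Agent.W93.PG.WinP ε A m → P m) →
      ∀ᶠ j : ℕ in atTop, ∀ p ∈ F j, ∀ m : ℕ, Even m →
        |(m:ℝ) - p.2.2 - p.2.1 * Int.fract (p.1 * x)| ≤ Real.log p.2.1 ^ W → P m := by
  have h1 : ∀ᵐ x ∂μ, ∀ A W k m₀ : ℕ, ∀ᶠ j : ℕ in atTop, ∀ p ∈ F j, ∀ m : ℕ,
      |(m:ℝ) - p.2.2 - p.2.1 * Int.fract (p.1 * x)| ≤ Real.log p.2.1 ^ W → Even m →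
        m₀ ≤ m ∧ Pool.Agent.W93.PG.WinP (1 / ((k:ℝ) + 1)) A m := by
    rw [ae_all_iff]; intro A
    rw [ae_all_iff]; intro W
    rw [ae_all_iff]; intro k
    rw [ae_all_iff]; intro m₀
    refine ae_block μ hμ (fun m => Even m → m₀ ≤ m ∧ Pool.Agent.W93.PG.WinP (1 / ((k:ℝ) + 1)) A m) ?_ F δ hδ B₀ D hF W
    intro h B C κ U hh
    have hk0 : (0:ℝ) < 1 / ((k:ℝ) + 1) := by positivity
    obtain ⟨N₀, h0⟩ := Pool.Agent.TH935.GF.transfer h B C U (Pool.Agent.W93.PG.WinP (1 / ((k:ℝ) + 1)) A) (fun B C U =>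
      Pool.Agent.TH935.GF.fam_win h B C A U 0 hh (1 / ((k:ℝ) + 1)) hk0 _ (fun m _ _ hw => hw))
    have hlo : (fun x : ℝ => Real.log x ^ κ) =o[atTop] (fun x : ℝ => x) := by
      have h0 := isLittleO_log_rpow_rpow_atTop (s := 1) ((κ : ℕ) : ℝ) (by norm_num)
      simp only [Real.rpow_natCast, Real.rpow_one] at h0
      exact h0
    have hlo1 := hlo.def (c := 1 / ((m₀:ℝ) + 1)) (by positivity)
    obtain ⟨N₁, h1⟩ := eventually_atTop.1 (tendsto_natCast_atTop_atTop.eventually hlo1)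
    refine ⟨N₀ + N₁ + 1, fun N hN ι _ v hv hE S hS => h0 N (by omega) ι v (fun i => (abs_le.1 (hv i)).2) hE S fun i hi => ?_⟩
    obtain ⟨a1, a2, a3⟩ := hS i hi
    push Not at a3
    obtain ⟨a4, a5⟩ := a3
    have a6 : (((v i).toNat : ℕ) : ℤ) = v i := Int.toNat_of_nonneg a1.le
    have hN0 : (0:ℝ) < N := by exact_mod_cast (by omega : 0 < N)
    refine ⟨a1, by rw [← a6]; exact_mod_cast a4, a5 ?_⟩
    by_contra hcon
    rw [not_le] at hcon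
    have a7 : (v i : ℝ) < m₀ := by
      rw [← a6]
      exact_mod_cast hcon
    have a8 := h1 N (by omega)
    have a9 : 0 ≤ Real.log (N:ℝ) ^ κ := pow_nonneg (Real.log_natCast_nonneg _) _
    rw [Real.norm_eq_abs, Real.norm_eq_abs, abs_of_nonneg a9, abs_of_pos hN0] at a8
    have a10 : (N:ℝ) ≤ m₀ * (1 / ((m₀:ℝ) + 1) * N) :=
      a2.trans (mul_le_mul a7.le a8 a9 (Nat.cast_nonneg _))
    have a11 : (m₀:ℝ) * (1 / ((m₀:ℝ) + 1) * N) < N := by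
      have : (m₀:ℝ) * (1 / ((m₀:ℝ) + 1) * N) = (m₀:ℝ) / (m₀ + 1) * N := by ring
      rw [this]
      have b1 : (m₀:ℝ) / (m₀ + 1) < 1 := by
        rw [div_lt_one (by positivity)]
        linarith
      nlinarith
    linarith
  filter_upwards [h1] with x hx P A W m₀ ε hε hP
  obtain ⟨k, hk⟩ := exists_nat_one_div_lt hε
  filter_upwards [hx A W k m₀] with j hj p hp m hm hd
  obtain ⟨h4, h5⟩ := hj p hp m hd hm
  exact hP m h4 hm.two_dvd (winP_mono hk.le h5)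

/-- blocks of digits, in all bases at once -/
theorem gold_digits (μ : Measure ℝ) [IsProbabilityMeasure μ] (hμ : FourierDecay μ) :
    ∀ᵐ x ∂μ, ∀ b : ℕ, 2 ≤ b → ∀ η : ℝ, 0 < η → ∀ (P : ℕ → Prop) (A W m₀ : ℕ) (ε : ℝ), 0 < ε →
      (∀ m : ℕ, m₀ ≤ m → 2 ∣ m → Pool.Agent.W93.PG.WinP ε A m → P m) →
      ∀ᶠ j : ℕ in atTop, ∀ k : ℕ, k ≤ j → (j : ℝ) ^ η ≤ k → ∀ m : ℕ, Even m →
        |(m:ℝ) - block b x (j - k) j| ≤ (k:ℝ) ^ W → P m := by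
  have h1 : ∀ᵐ x ∂μ, ∀ b n : ℕ, 2 ≤ b → ∀ (P : ℕ → Prop) (A W m₀ : ℕ) (ε : ℝ), 0 < ε →
      (∀ m : ℕ, m₀ ≤ m → 2 ∣ m → Pool.Agent.W93.PG.WinP ε A m → P m) →
      ∀ᶠ j : ℕ in atTop, ∀ k : ℕ, k ≤ j → (j : ℝ) ^ (1 / ((n:ℝ) + 1)) ≤ k → ∀ m : ℕ, Even m →
        |(m:ℝ) - block b x (j - k) j| ≤ (k:ℝ) ^ W → P m := by
    rw [ae_all_iff]
    intro b
    rw [ae_all_iff]
    intro n
    by_cases hb : 2 ≤ b
    · have hη : (0:ℝ) < 1 / ((n:ℝ) + 1) := by positivity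
      filter_upwards [gold_block μ hμ (blockF b (1 / ((n:ℝ) + 1))) (1 / ((n:ℝ) + 1) / 2) (by positivity) 0 2
        (blockF_ok b hb _ hη)] with x hx _ P A W m₀ ε hε hP
      filter_upwards [hx P A (W + 2) m₀ ε hε hP, block_use b hb _ hη W] with j h2 h3 k hk hkη m hm hd
      exact h3 x (fun q => Even q → P q) (fun p hp q hq hev => h2 p hp q hev hq) k hk hkη m hd hm
    · exact ae_of_all _ fun x h => absurd h hb
  filter_upwards [h1] with x hx b hb η hη P A W m₀ ε hε hP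
  obtain ⟨n, hn⟩ := exists_nat_one_div_lt hη
  filter_upwards [hx b n hb P A W m₀ ε hε hP, eventually_ge_atTop 1] with j h2 hj1 k hk hkη m hm hd
  refine h2 k hk (le_trans ?_ hkη) m hm hd
  exact Real.rpow_le_rpow_of_exponent_le (by exact_mod_cast hj1) hn.le

end Pool.Agent.U160.FD
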