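import Pool.Agent.U160.FD.Block1
import Pool.Agent.U160.FD.Digits
import Pool.Agent.U160.FD.Transfer1
import Pool.Agent.K7.H49.LT.Lin

/-!
# Good leading coefficients of linear forms near blocks of digits
-/

set_option autoImplicit false

namespace Pool.Agent.U160.FD

open MeasureTheory Filter Finset Pool.Agent.TH935.GF
open Pool.Agent.K7.H49.LT (Gd)

lemma gd_mono {E E₁ E₂ a : ℕ} (h : E₁ ≤ E₂) (ha : 3 ≤ a) (hg : Gd E E₁ a) : Gd E E₂ a := by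
  obtain ⟨z, h1, h2, h3⟩ := hg
  refine ⟨z, h1, h2.trans ?_, h3⟩
  have h4 : 1 ≤ Real.log (a : ℝ) := by
    rw [Real.le_log_iff_exp_le (by exact_mod_cast (by omega : 0 < a))]
    have : (3 : ℝ) ≤ a := by exact_mod_cast ha
    linarith [Real.exp_one_lt_d9]
  exact pow_le_pow_right₀ h4 h

lemma good_fam (E h B C κ U : ℕ) : ∃ E₁ : ℕ, ∀ N₁ : ℕ, ∃ N₀ : ℕ, ∀ N : ℕ, N₀ ≤ N → ∀ (ι : Type) [Fintype ι] (v : ι → ℤ),
      (∀ i, |v i| ≤ B * N) →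
      (En h v : ℝ) * N ≤ Real.log N ^ C * (Fintype.card ι : ℝ) ^ (2 * h) →
      ∀ S : Finset ι, (∀ i ∈ S, 0 < v i ∧ (N : ℝ) ≤ v i * Real.log N ^ κ ∧ ¬ (N₁ ≤ (v i).toNat ∧ Gd E E₁ (v i).toNat)) →
        (S.card : ℝ) ≤ Fintype.card ι / Real.log N ^ U := by
  classical
  obtain ⟨B', hB'⟩ : ∃ B' : ℕ, B' = B + (C + 2 * h * U) + κ := ⟨_, rfl⟩
  obtain ⟨E₁, N0, hlin⟩ := Pool.Agent.K7.H49.LT.lin_fam E U B' h
  refine ⟨E₁, fun N₁ => ?_⟩
  refine transfer1 h B C κ U (fun a => N₁ ≤ a ∧ Gd E E₁ a) ?_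
  obtain ⟨n1, h1⟩ := Pool.Agent.H373R2.T7.ev_L' 1
  have hlo : (fun x : ℝ => Real.log x ^ κ) =o[atTop] (fun x : ℝ => x) := by
    have h0 := isLittleO_log_rpow_rpow_atTop (s := 1) ((κ : ℕ) : ℝ) (by norm_num)
    simp only [Real.rpow_natCast, Real.rpow_one] at h0
    exact h0
  have hlo1 := hlo.def (c := 1 / ((N₁:ℝ) + 1)) (by positivity)
  obtain ⟨n2, h2⟩ := eventually_atTop.1 (tendsto_natCast_atTop_atTop.eventually hlo1)
  refine ⟨N0 + n1 + n2 + 1, fun N hN x s hs hE => ?_⟩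
  have hL := h1 N (by omega)
  have hN0 : (0:ℝ) < N := by exact_mod_cast (by omega : 0 < N)
  have key := hlin h le_rfl N (by omega) x s (fun l hl => (hs l hl).trans (Nat.mul_le_mul_right _ (by omega))) (by
    refine hE.trans ?_
    apply mul_le_mul_of_nonneg_right _ (by positivity)
    exact pow_le_pow_right₀ hL (by omega))
  refine le_trans ?_ key
  apply Nat.cast_le.2
  apply card_le_card
  intro l hl
  obtain ⟨q1, q2, q3⟩ := (@Finset.mem_filter _ _ (_) _ _).1 hl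
  have hκB : Real.log (N:ℝ) ^ κ ≤ Real.log N ^ B' := pow_le_pow_right₀ hL (by omega)
  refine mem_filter.2 ⟨q1, q2.trans (mul_le_mul_of_nonneg_right hκB (Nat.cast_nonneg _)), fun hg => q3 ⟨?_, hg⟩⟩
  by_contra hcon
  rw [not_le] at hcon
  have a7 : (s l : ℝ) ≤ N₁ := by exact_mod_cast hcon.le
  have a8 := h2 N (by omega)
  have a9 : 0 ≤ Real.log (N:ℝ) ^ κ := by positivity
  rw [Real.norm_eq_abs, Real.norm_eq_abs, abs_of_nonneg a9, abs_of_pos hN0] at a8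
  have a10 : (N:ℝ) ≤ (1 / ((N₁:ℝ) + 1) * N) * N₁ :=
    q2.trans (mul_le_mul a8 a7 (Nat.cast_nonneg _) (by positivity))
  have a11 : (1 / ((N₁:ℝ) + 1) * N) * N₁ < N := by
    have : (1 / ((N₁:ℝ) + 1) * N) * N₁ = (N₁:ℝ) / (N₁ + 1) * N := by ring
    rw [this]
    have b1 : (N₁:ℝ) / (N₁ + 1) < 1 := by
      rw [div_lt_one (by positivity)]
      linarith
    nlinarith
  linarith

/-- the integers near the blocks of digits are good leading coefficients -/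
theorem good_digits (μ : Measure ℝ) [IsProbabilityMeasure μ] (hμ : FourierDecay μ) (b : ℕ) (hb : 2 ≤ b) (η : ℝ) (hη : 0 < η)
    (W E : ℕ) : ∃ E₁ : ℕ, ∀ᵐ x ∂μ, ∀ N₁ : ℕ, ∀ᶠ j : ℕ in atTop, ∀ k : ℕ, k ≤ j → (j : ℝ) ^ η ≤ k →
      ∀ q : ℕ, |(q:ℝ) - block b x (j - k) j| ≤ (k:ℝ) ^ W → N₁ ≤ q ∧ Gd E E₁ q := by
  obtain ⟨h, B, C, κ, U, hh, hP⟩ := ae_block1 μ hμ (blockF b η) (η / 2) (by positivity) 0 2 (blockF_ok b hb η hη) (W + 2)
  obtain ⟨E₁, hfam⟩ := good_fam E h B C κ U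
  refine ⟨E₁, ?_⟩
  rw [ae_all_iff]
  intro N₁
  filter_upwards [hP (fun a => N₁ ≤ a ∧ Gd E E₁ a) (hfam N₁)] with x hx
  filter_upwards [hx, block_use b hb η hη W] with j h2 h3
  exact h3 x _ h2

end Pool.Agent.U160.FD
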