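import Pool.Agent.U160.FD.Gold

/-!
# Goldbach pairs at the multiples of the integers near the dilates
-/

set_option autoImplicit false

namespace Pool.Agent.U160.FD

open Finset Pool.Agent.TH935.GF

lemma En_mul (h : ℕ) {ι : Type} [Fintype ι] (v : ι → ℤ) (t : ℕ) (ht : 0 < t) :
    En h (fun i => (t : ℤ) * v i) = En h v := by
  unfold En
  apply Nat.card_congr
  refine Equiv.subtypeEquivRight fun q => ?_
  rw [← mul_sum, ← mul_sum]
  exact mul_right_inj' (by exact_mod_cast ht.ne')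

theorem multH (P : ℕ → Prop) (A m₀ J : ℕ) (ε : ℝ) (hε : 0 < ε)
    (hP : ∀ m : ℕ, m₀ ≤ m → 2 ∣ m → Pool.Agent.W93.PG.WinP ε A m → P m) (h C U : ℕ) (hh : 1 ≤ h) :
    ∃ N₀ : ℕ, ∀ N : ℕ, N₀ ≤ N → ∀ (ι : Type) [Fintype ι] (v : ι → ℤ),
      (∀ i, |v i| ≤ N) →
      (En h v : ℝ) * N ≤ Real.log N ^ C * (Fintype.card ι : ℝ) ^ (2 * h) →
      ∀ S : Finset ι, (∀ i ∈ S, 0 < v i ∧ (N : ℝ) ≤ v i * Real.log N ^ 2 ∧
        ¬ (∀ t : ℕ, 0 < t → (t : ℝ) ≤ Real.log (v i).toNat ^ J → Even (t * (v i).toNat) → P (t * (v i).toNat))) →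
        (S.card : ℝ) ≤ Fintype.card ι / Real.log N ^ U := by
  classical
  obtain ⟨N₀, h0⟩ := transfer h 1 (C + J) (U + J) P (fun B C U => fam_win h B C A U m₀ hh ε hε P hP)
  obtain ⟨N₁, h1⟩ := Pool.Agent.H373R2.T7.ev_L' 1
  refine ⟨N₀ + N₁ + 3, fun N hN ι _ v hv hE S hS => ?_⟩
  have hL1 := h1 N (by omega)
  have hN3 : (3 : ℝ) ≤ N := by exact_mod_cast (by omega : 3 ≤ N)
  have hN0 : (0 : ℝ) < N := by linarith
  have hL0 : 0 < Real.log N := by linarith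
  obtain ⟨T, hT⟩ : ∃ T, T = ⌊Real.log N ^ J⌋₊ := ⟨_, rfl⟩
  have hT1 : 1 ≤ T := by rw [hT]; exact Nat.le_floor (by simpa using one_le_pow₀ hL1)
  have hTr : (T : ℝ) ≤ Real.log N ^ J := by rw [hT]; exact Nat.floor_le (by positivity)
  obtain ⟨N', hN'⟩ : ∃ N', N' = T * N := ⟨_, rfl⟩
  have hNN : N ≤ N' := by rw [hN']; exact Nat.le_mul_of_pos_left N hT1
  have hNNr : (N : ℝ) ≤ N' := by exact_mod_cast hNN
  have hLL : Real.log N ≤ Real.log N' := Real.log_le_log hN0 hNNr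
  have hcov : S ⊆ (Icc 1 T).biUnion (fun t => S.filter (fun i => Even (t * (v i).toNat) ∧ ¬ P (t * (v i).toNat))) := by
    intro i hi
    obtain ⟨a1, a2, a3⟩ := hS i hi
    push Not at a3
    obtain ⟨t, t1, t2, t3, t4⟩ := a3
    rw [mem_biUnion]
    refine ⟨t, ?_, ?_⟩
    · rw [mem_Icc]
      refine ⟨t1, ?_⟩
      rw [hT]
      apply Nat.le_floor
      refine t2.trans ?_
      have b1 : (((v i).toNat : ℕ) : ℤ) = v i := Int.toNat_of_nonneg a1.le
      have b2 : (v i).toNat ≤ N := by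
        have := (abs_le.1 (hv i)).2
        omega
      have b3 : (0 : ℝ) < ((v i).toNat : ℕ) := by
        have : 0 < (v i).toNat := by omega
        exact_mod_cast this
      apply pow_le_pow_left₀ (Real.log_natCast_nonneg _)
      exact Real.log_le_log b3 (by exact_mod_cast b2)
    · rw [mem_filter]
      exact ⟨hi, t3, t4⟩
  have hSt : ∀ t ∈ Icc 1 T, ((S.filter (fun i => Even (t * (v i).toNat) ∧ ¬ P (t * (v i).toNat))).card : ℝ) ≤
      Fintype.card ι / Real.log N ^ (U + J) := by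
    intro t ht
    rw [mem_Icc] at ht
    have key := h0 N' (by omega) ι (fun i => (t : ℤ) * v i) (fun i => by
      have b1 := hv i
      have b2 : (t : ℤ) * v i ≤ T * N := by
        calc (t : ℤ) * v i ≤ t * |v i| := mul_le_mul_of_nonneg_left (le_abs_self _) (by positivity)
          _ ≤ T * N := mul_le_mul (by exact_mod_cast ht.2) b1 (abs_nonneg _) (by positivity)
      rw [hN']
      push_cast
      linarith) (by
      rw [En_mul h v t ht.1]
      have b3 : (N' : ℝ) = T * N := by rw [hN']; push_cast; ring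
      calc (En h v : ℝ) * N' = T * ((En h v : ℝ) * N) := by rw [b3]; ring
        _ ≤ Real.log N ^ J * (Real.log N ^ C * (Fintype.card ι : ℝ) ^ (2 * h)) :=
            mul_le_mul hTr hE (by positivity) (by positivity)
        _ = Real.log N ^ (C + J) * (Fintype.card ι : ℝ) ^ (2 * h) := by ring
        _ ≤ _ := mul_le_mul_of_nonneg_right (pow_le_pow_left₀ hL0.le hLL _) (by positivity))
      (S.filter (fun i => Even (t * (v i).toNat) ∧ ¬ P (t * (v i).toNat))) (by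
      intro i hi
      rw [mem_filter] at hi
      obtain ⟨hi1, hi2, hi3⟩ := hi
      have a1 := (hS i hi1).1
      have b1 : (((v i).toNat : ℕ) : ℤ) = v i := Int.toNat_of_nonneg a1.le
      have b2 : ((t : ℤ) * v i) = ((t * (v i).toNat : ℕ) : ℤ) := by push_cast; rw [b1]
      have b4 : (0 : ℤ) < t := by exact_mod_cast ht.1
      refine ⟨mul_pos b4 a1, ?_, ?_⟩
      · rw [b2]
        exact_mod_cast hi2
      · rw [b2, Int.toNat_natCast]
        exact hi3)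
    refine key.trans ?_
    apply div_le_div_of_nonneg_left (Nat.cast_nonneg _) (by positivity)
    exact pow_le_pow_left₀ hL0.le hLL _
  calc (S.card : ℝ) ≤ ∑ t ∈ Icc 1 T, ((S.filter (fun i => Even (t * (v i).toNat) ∧ ¬ P (t * (v i).toNat))).card : ℝ) := by
        exact_mod_cast (card_le_card hcov).trans card_biUnion_le
    _ ≤ ∑ _t ∈ Icc 1 T, (Fintype.card ι : ℝ) / Real.log N ^ (U + J) := sum_le_sum hSt
    _ = T * (Fintype.card ι / Real.log N ^ (U + J)) := by rw [sum_const, Nat.card_Icc, nsmul_eq_mul]; norm_num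
    _ ≤ Real.log N ^ J * (Fintype.card ι / Real.log N ^ (U + J)) := mul_le_mul_of_nonneg_right hTr (by positivity)
    _ = Fintype.card ι / Real.log N ^ U := by
        rw [pow_add]
        field_simp

open MeasureTheory Filter

lemma size (lam : ℕ → ℝ) (δ : ℝ) (hδ : 0 < δ) (hlam : ∀ᶠ j : ℕ in atTop, Real.exp ((j:ℝ) ^ δ) ≤ lam j) (W m₀ : ℕ)
    (x : ℝ) (hx : 0 < x) : ∀ᶠ j : ℕ in atTop, ∀ q : ℕ, |(q:ℝ) - lam j * x| ≤ Real.log (lam j) ^ W → m₀ ≤ q := by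
  have hexp : Tendsto (fun j : ℕ => Real.exp ((j:ℝ) ^ δ)) atTop atTop :=
    Real.tendsto_exp_atTop.comp ((tendsto_rpow_atTop hδ).comp tendsto_natCast_atTop_atTop)
  have hlamt : Tendsto lam atTop atTop := tendsto_atTop_mono' atTop hlam hexp
  have hlo : (fun x : ℝ => Real.log x ^ W) =o[atTop] (fun x : ℝ => x) := by
    have := isLittleO_log_rpow_rpow_atTop (s := 1) (W : ℝ) (by norm_num)
    simpa using this
  have hlo1 := hlo.def (c := x / 2) (by positivity)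
  filter_upwards [hlamt.eventually hlo1, hlamt.eventually_ge_atTop (2 * m₀ / x), hlamt.eventually_ge_atTop 1] with j h2 h3 h4 q hq
  have hlam0 : 0 < lam j := by linarith
  rw [Real.norm_eq_abs, Real.norm_eq_abs, abs_of_pos hlam0] at h2
  have h5 : Real.log (lam j) ^ W ≤ x / 2 * lam j := (le_abs_self _).trans h2
  rw [div_le_iff₀ hx] at h3
  have h6 : (m₀ : ℝ) ≤ q := by
    have := (abs_le.1 hq).1
    linarith
  exact_mod_cast h6

/-- all parameters at once -/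
theorem mult_main (μ : Measure ℝ) [IsProbabilityMeasure μ] (hμ : FourierSmall μ)
    (lam : ℕ → ℝ) (δ : ℝ) (hδ : 0 < δ) (hlam : ∀ᶠ j : ℕ in atTop, Real.exp ((j:ℝ) ^ δ) ≤ lam j) :
    ∀ᵐ x ∂μ, 0 < x → ∀ (P : ℕ → Prop) (A W J m₀ : ℕ) (ε : ℝ), 0 < ε →
      (∀ m : ℕ, m₀ ≤ m → 2 ∣ m → Pool.Agent.W93.PG.WinP ε A m → P m) →
      ∀ᶠ j : ℕ in atTop, ∀ q : ℕ, |(q:ℝ) - lam j * x| ≤ Real.log (lam j) ^ W →
        ∀ t : ℕ, 0 < t → (t : ℝ) ≤ Real.log q ^ J → Even (t * q) → P (t * q) := by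
  have h1 : ∀ᵐ x ∂μ, ∀ A W J k : ℕ, 0 < x → ∀ᶠ j : ℕ in atTop, ∀ q : ℕ, |(q:ℝ) - lam j * x| ≤ Real.log (lam j) ^ W →
        ∀ t : ℕ, 0 < t → (t : ℝ) ≤ Real.log q ^ J → Even (t * q) →
        Pool.Agent.W93.PG.WinP (1 / ((k:ℝ) + 1)) A (t * q) := by
    rw [ae_all_iff]; intro A
    rw [ae_all_iff]; intro W
    rw [ae_all_iff]; intro J
    rw [ae_all_iff]; intro k
    exact ae_pos μ hμ _ (fun h C U hh => multH (Pool.Agent.W93.PG.WinP (1 / ((k:ℝ) + 1)) A) A 0 J (1 / ((k:ℝ) + 1))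
      (by positivity) (fun m _ _ h => h) h C U hh) lam δ hδ hlam W
  filter_upwards [h1] with x hx hx0 P A W J m₀ ε hε hP
  obtain ⟨k, hk⟩ := exists_nat_one_div_lt hε
  filter_upwards [hx A W J k hx0, size lam δ hδ hlam W m₀ x hx0] with j hj hj2 q hd t ht1 ht2 ht3
  exact hP _ ((hj2 q hd).trans (Nat.le_mul_of_pos_left q ht1)) ht3.two_dvd (winP_mono hk.le (hj q hd t ht1 ht2 ht3))

/-- all bases at once -/
theorem mult_bases (μ : Measure ℝ) [IsProbabilityMeasure μ] (hμ : FourierSmall μ) :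
    ∀ᵐ x ∂μ, 0 < x → ∀ b : ℕ, 2 ≤ b → ∀ (P : ℕ → Prop) (A W J m₀ : ℕ) (ε : ℝ), 0 < ε →
      (∀ m : ℕ, m₀ ≤ m → 2 ∣ m → Pool.Agent.W93.PG.WinP ε A m → P m) →
      ∀ᶠ j : ℕ in atTop, ∀ q : ℕ, |(q:ℝ) - (b:ℝ) ^ j * x| ≤ (j:ℝ) ^ W →
        ∀ t : ℕ, 0 < t → (t : ℝ) ≤ Real.log q ^ J → Even (t * q) → P (t * q) := by
  have h1 : ∀ᵐ x ∂μ, ∀ b : ℕ, 2 ≤ b → 0 < x → ∀ (P : ℕ → Prop) (A W J m₀ : ℕ) (ε : ℝ), 0 < ε →
      (∀ m : ℕ, m₀ ≤ m → 2 ∣ m → Pool.Agent.W93.PG.WinP ε A m → P m) →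
      ∀ᶠ j : ℕ in atTop, ∀ q : ℕ, |(q:ℝ) - (b:ℝ) ^ j * x| ≤ Real.log ((b:ℝ) ^ j) ^ W →
        ∀ t : ℕ, 0 < t → (t : ℝ) ≤ Real.log q ^ J → Even (t * q) → P (t * q) := by
    rw [ae_all_iff]
    intro b
    by_cases hb : 2 ≤ b
    · filter_upwards [mult_main μ hμ (fun j => (b:ℝ) ^ j) (1 / 2) (by norm_num) (exp_le_pow b hb)] with x hx _
      exact hx
    · exact ae_of_all _ fun x h => absurd h hb
  filter_upwards [h1] with x hx hx0 b hb P A W J m₀ ε hε hP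
  filter_upwards [hx b hb hx0 P A (W + 1) J m₀ ε hε hP, pow_le_log b W hb] with j hj1 hj2 q hd
  exact hj1 q (hd.trans hj2)

end Pool.Agent.U160.FD
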