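import Pool.Agent.U160.FD.Wrap
import Pool.Agent.TH935.DF5
import Pool.Agent.TH935.LF13

/-!
# Prime pairs in progressions, for families of small energy, all ranges at once
-/

set_option autoImplicit false

namespace Pool.Agent.U160.FD

open Finset Pool.Agent.TH935.GF Pool.Agent.H560R3.GB
open Pool.Agent.H373R2.T7 (ev_L' ev_log')
open Pool.Agent.W93.PP (GoodD)

lemma goodD_mono (A B C X X' D : ℕ) (hX : X ≤ X') (hX' : X' ≤ 2 * X) (hL : 2 ≤ Real.log X)
    (h : GoodD A B (C + 1) X' D) : GoodD A B C X D := by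
  intro δ q a h1 h2 h3 h4 h5 h6 h7 x h8 h9
  have hX0 : (0 : ℝ) < X := by
    have : X ≠ 0 := by
      rintro rfl
      simp at hL
      linarith
    exact_mod_cast Nat.pos_of_ne_zero this
  have hXr : (X : ℝ) ≤ X' := by exact_mod_cast hX
  have hX'r : (X' : ℝ) ≤ 2 * X := by exact_mod_cast hX'
  have hLL : Real.log X ≤ Real.log X' := Real.log_le_log hX0 hXr
  have hL0 : 0 ≤ Real.log X := by linarith
  refine (h δ q a (h1.trans (pow_le_pow_left₀ hL0 hLL _)) h2 (h3.trans (pow_le_pow_left₀ hL0 hLL _)) h4 h5 h6 h7 x h8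
    (h9.trans hXr)).trans ?_
  have e1 : 2 * Real.log X ^ C ≤ Real.log X' ^ (C + 1) := by
    calc 2 * Real.log X ^ C ≤ Real.log X' * Real.log X' ^ C :=
          mul_le_mul (by linarith) (pow_le_pow_left₀ hL0 hLL _) (by positivity) (by linarith)
      _ = Real.log X' ^ (C + 1) := by ring
  have e2 : 0 < Real.log X ^ C := by
    have : 0 < Real.log X := by linarith
    positivity
  calc (X' : ℝ) / Real.log X' ^ (C + 1) ≤ (2 * X) / (2 * Real.log X ^ C) :=
        div_le_div₀ (by positivity) hX'r (by positivity) e1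
    _ = X / Real.log X ^ C := by
        rw [mul_div_mul_left _ _ (by norm_num : (2:ℝ) ≠ 0)]

/-- the property of `D` for all `X` in the range -/
def AllX (A B C W D : ℕ) : Prop :=
  ∀ X : ℕ, (D : ℝ) * Real.log X ^ (C + 12) ≤ X → (X : ℝ) ≤ D * Real.log X ^ W → GoodD A B C X D

theorem pairsH (A B C W h C₀ U : ℕ) : ∃ N₀ : ℕ, ∀ N : ℕ, N₀ ≤ N → ∀ (ι : Type) [Fintype ι] (v : ι → ℤ),
      (∀ i, |v i| ≤ N) →
      (En h v : ℝ) * N ≤ Real.log N ^ C₀ * (Fintype.card ι : ℝ) ^ (2 * h) →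
      ∀ S : Finset ι, (∀ i ∈ S, 0 < v i ∧ (N : ℝ) ≤ v i * Real.log N ^ 2 ∧ ¬ AllX A B C W (v i).toNat) →
        (S.card : ℝ) ≤ Fintype.card ι / Real.log N ^ U := by
  classical
  obtain ⟨N₀, h0⟩ := Pool.Agent.TH935.LF.transferK h 1 C₀ (U + 2) (κ := ℕ)
    (fun N X => N ≤ X ∧ (N : ℝ) * Real.log X ^ (C + 7) ≤ X ∧ (X : ℝ) ≤ N * Real.log X ^ (W + 1))
    (fun _ X c => 0 < c → GoodD A B (C + 1) X c.toNat) (by
    intro C₀ U
    obtain ⟨N₀, h1⟩ := Pool.Agent.TH935.DF.gd_fam h A B (C + 1) U C₀ 1 (W + 1)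
    refine ⟨N₀, fun N hN X hX x s hs hE S hSx hS => h1 N hN x s (fun m hm => (hs m hm).1) hE X hX.1 hX.2.1 hX.2.2 S hSx
      fun m hm => ?_⟩
    have h2 := hS m hm
    push Not at h2
    exact ⟨h2.1.le, h2.2⟩)
  obtain ⟨n1, h1⟩ := ev_L' ((3 : ℝ) ^ (C + 8) * 2 ^ (C + 12) + 16)
  obtain ⟨n2, h2⟩ := ev_log' 2 1
  obtain ⟨n3, h3⟩ := ev_log' W 1
  refine ⟨N₀ + n1 + n2 + (n3 + 3) ^ 2 + 3, fun N hN ι _ v hv hE S hS => ?_⟩
  have hL := h1 N (by omega)
  have hsq := h2 N (by omega)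
  rw [one_mul] at hsq
  have hNn3 : (n3 + 3) ^ 2 ≤ N := by omega
  have hN3 : (3 : ℝ) ≤ N := by exact_mod_cast (by omega : 3 ≤ N)
  have hN0 : (0 : ℝ) < N := by linarith
  obtain ⟨L, hLd⟩ : ∃ L, L = Real.log (N : ℝ) := ⟨_, rfl⟩
  have c0 := h0 N (by omega)
  rw [← hLd] at hL hsq hE hS c0 ⊢
  have h3p : (0:ℝ) < (3 : ℝ) ^ (C + 8) * 2 ^ (C + 12) := by positivity
  have hL16 : 16 ≤ L := by linarith
  have hL0 : 0 < L := by linarith
  have hL1 : 1 ≤ L := by linarith
  have hNN : √(N:ℝ) * √(N:ℝ) = N := Real.mul_self_sqrt hN0.le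
  have hsq0 : 0 < √(N:ℝ) := Real.sqrt_pos.2 hN0
  obtain ⟨K, hK⟩ : ∃ K, K = ⌊4 * L⌋₊ := ⟨_, rfl⟩
  have hcov : S ⊆ (range (K + 1)).biUnion (fun k => S.filter (fun i =>
      (N ≤ 2 ^ k ∧ (N : ℝ) * Real.log (2 ^ k : ℕ) ^ (C + 7) ≤ (2 ^ k : ℕ) ∧ ((2 ^ k : ℕ) : ℝ) ≤ N * Real.log (2 ^ k : ℕ) ^ (W + 1)) ∧
      ¬ GoodD A B (C + 1) (2 ^ k) (v i).toNat)) := by
    intro i hi
    obtain ⟨a1, a2, a3⟩ := hS i hi
    obtain ⟨D, hD⟩ : ∃ D : ℕ, D = (v i).toNat := ⟨_, rfl⟩
    have b1 : ((D : ℕ) : ℤ) = v i := by rw [hD]; exact Int.toNat_of_nonneg a1.le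
    have b1r : ((v i : ℤ) : ℝ) = D := by rw [← b1]; simp
    rw [b1r] at a2
    rw [← hD] at a3
    unfold AllX at a3
    push Not at a3
    obtain ⟨X, x1, x2, x3⟩ := a3
    have hD1 : 1 ≤ D := by omega
    have hDN : D ≤ N := by
      have := (abs_le.1 (hv i)).2
      omega
    have hD1r : (1 : ℝ) ≤ D := by exact_mod_cast hD1
    have hDNr : (D : ℝ) ≤ N := by exact_mod_cast hDN
    -- `D ≥ √N`
    have hDs : √(N:ℝ) ≤ D := by
      have e1 : √(N:ℝ) * √(N:ℝ) ≤ D * √(N:ℝ) := by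
        rw [hNN]
        exact a2.trans (mul_le_mul_of_nonneg_left hsq (by linarith))
      exact le_of_mul_le_mul_right e1 hsq0
    have hX0 : (0 : ℝ) ≤ X := Nat.cast_nonneg _
    have hlogX0 : 0 ≤ Real.log X := Real.log_natCast_nonneg _
    -- `X ≥ D`
    have hXpos : 1 ≤ X := by
      by_contra hcon
      have : X = 0 := by omega
      rw [this] at x1 x2 x3
      apply x3
      intro δ q a _ _ _ _ _ _ _ x y1 y2
      simp at y2
      linarith
    have hXDr : (D : ℝ) ≤ X := by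
      rcases le_or_gt 1 (Real.log X) with e1 | e1
      · calc (D : ℝ) = D * 1 := (mul_one _).symm
          _ ≤ D * Real.log X ^ (C + 12) := mul_le_mul_of_nonneg_left (one_le_pow₀ e1) (by linarith)
          _ ≤ X := x1
      · have e2 : Real.log X ^ W ≤ 1 := pow_le_one₀ hlogX0 e1.le
        by_contra hcon
        push Not at hcon
        -- then `X < e`
        have e3 : (X : ℝ) < 3 := by
          have : (X : ℝ) < Real.exp 1 := by
            rw [← Real.log_lt_iff_lt_exp (by exact_mod_cast hXpos)]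
            exact e1
          linarith [Real.exp_one_lt_d9]
        apply x3
        have hX2 : X ≤ 2 := by
          have : X < 3 := by exact_mod_cast e3
          omega
        intro δ q a d1 d2 d3 d4 d5 d6 d7 x y1 y2
        exfalso
        have hX2' : X = 2 := by
          have : (2 : ℝ) ≤ X := y1.trans y2
          have : 2 ≤ X := by exact_mod_cast this
          omega
        have hDX : (X : ℝ) ≤ D := hcon.le
        have e5 : Real.log (X:ℝ) < 1 := e1
        have hq : (X : ℝ) ≤ D * Real.log X ^ W := x2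
        have e6 : (D : ℝ) * Real.log X ^ (C + 12) ≤ 2 := by
          rw [hX2'] at x1 ⊢
          exact_mod_cast x1
        have e7 : (1 / 2 : ℝ) ≤ Real.log X := by
          rw [hX2']
          have := Real.log_two_gt_d9
          push_cast
          linarith
        have e8 : (1 / 2 : ℝ) ^ (C + 12) ≤ Real.log X ^ (C + 12) := pow_le_pow_left₀ (by norm_num) e7 _
        have e9 : (D : ℝ) * (1 / 2 : ℝ) ^ (C + 12) ≤ 2 := (mul_le_mul_of_nonneg_left e8 (by linarith)).trans e6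
        have e10 : (D : ℝ) ≤ 2 * 2 ^ (C + 12) := by
          have e11 : (1 / 2 : ℝ) ^ (C + 12) * 2 ^ (C + 12) = 1 := by rw [← mul_pow]; norm_num
          calc (D : ℝ) = (D * (1 / 2 : ℝ) ^ (C + 12)) * 2 ^ (C + 12) := by rw [mul_assoc, e11, mul_one]
            _ ≤ 2 * 2 ^ (C + 12) := mul_le_mul_of_nonneg_right e9 (by positivity)
        have e12 : L ^ 2 ≤ D := hsq.trans hDs
        have e13 : (2 : ℝ) ^ (C + 12) ≤ L := by
          have : (1:ℝ) ≤ 3 ^ (C + 8) := one_le_pow₀ (by norm_num)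
          nlinarith [show (0:ℝ) < 2 ^ (C + 12) by positivity]
        nlinarith
    have hXD : D ≤ X := by exact_mod_cast hXDr
    have hXr0 : (0 : ℝ) < X := by linarith
    -- `log X ≥ L / 2`
    have hlogX : L / 2 ≤ Real.log X := by
      have e1 : Real.log (√(N:ℝ)) ≤ Real.log X := Real.log_le_log hsq0 (hDs.trans hXDr)
      rw [Real.log_sqrt hN0.le, ← hLd] at e1
      exact e1
    -- `X ≤ N ^ 2`
    have hXn3 : n3 ≤ X := by
      have e1 : (n3 : ℝ) ≤ √(N:ℝ) := by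
        apply Real.le_sqrt_of_sq_le
        have : ((n3 : ℝ)) ^ 2 ≤ ((n3 + 3 : ℕ) : ℝ) ^ 2 := by
          apply pow_le_pow_left₀ (Nat.cast_nonneg _)
          push_cast
          linarith
        refine this.trans ?_
        exact_mod_cast hNn3
      exact_mod_cast (e1.trans hDs).trans hXDr
    have hXW := h3 X hXn3
    rw [one_mul] at hXW
    have hXX : √(X:ℝ) * √(X:ℝ) = X := Real.mul_self_sqrt hX0
    have hsX : 0 < √(X:ℝ) := Real.sqrt_pos.2 hXr0
    have hXN : √(X:ℝ) ≤ N := by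
      have e1 : √(X:ℝ) * √(X:ℝ) ≤ N * √(X:ℝ) := by
        rw [hXX]
        exact x2.trans (mul_le_mul hDNr hXW (by positivity) hN0.le)
      exact le_of_mul_le_mul_right e1 hsX
    have hlogX2 : Real.log X ≤ 2 * L := by
      have e1 : Real.log (√(X:ℝ)) ≤ L := by rw [hLd]; exact Real.log_le_log hsX hXN
      rw [Real.log_sqrt hX0] at e1
      linarith
    obtain ⟨k, hk⟩ : ∃ k, k = Nat.clog 2 X := ⟨_, rfl⟩
    have hk1 : X ≤ 2 ^ k := by rw [hk]; exact Nat.le_pow_clog (by norm_num) X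
    have hX2 : 2 ≤ X := by
      have e1 : (4 : ℝ) ≤ √(N:ℝ) := by nlinarith
      have : (2 : ℝ) ≤ X := by linarith
      exact_mod_cast this
    have hk2 : 2 ^ k ≤ 2 * X := by
      have e1 : 2 ^ (Nat.clog 2 X).pred < X := Nat.pow_pred_clog_lt_self (by norm_num) (by omega)
      have e2 : 0 < Nat.clog 2 X := Nat.clog_pos (by norm_num) hX2
      rw [hk]
      have e3 : 2 ^ Nat.clog 2 X = 2 * 2 ^ (Nat.clog 2 X).pred := by
        rw [← pow_succ']
        congr 1
        exact (Nat.succ_pred_eq_of_pos e2).symm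
      omega
    obtain ⟨Y, hY⟩ : ∃ Y : ℕ, Y = 2 ^ k := ⟨_, rfl⟩
    rw [← hY] at hk1 hk2
    have hYr : (X : ℝ) ≤ Y := by exact_mod_cast hk1
    have hYr2 : (Y : ℝ) ≤ 2 * X := by exact_mod_cast hk2
    have hY0 : (0 : ℝ) < Y := by linarith
    have hlogY : Real.log X ≤ Real.log Y := Real.log_le_log hXr0 hYr
    have hlogY2 : Real.log Y ≤ 3 * L := by
      have e1 : Real.log Y ≤ Real.log (2 * X) := Real.log_le_log hY0 hYr2
      rw [Real.log_mul (by norm_num) hXr0.ne'] at e1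
      linarith [Real.log_two_lt_d9]
    have hlogY0 : 0 ≤ Real.log Y := by linarith
    -- `N (log Y)^(C + 7) ≤ Y`
    have hbig : (N : ℝ) * Real.log Y ^ (C + 7) ≤ Y := by
      have e1 : Real.log Y ^ (C + 7) ≤ (3 * L) ^ (C + 7) := pow_le_pow_left₀ hlogY0 hlogY2 _
      have e2 : (L / 2) ^ (C + 12) ≤ Real.log X ^ (C + 12) := pow_le_pow_left₀ (by linarith) hlogX _
      have e3 : (D : ℝ) * (L / 2) ^ (C + 12) ≤ Y := ((mul_le_mul_of_nonneg_left e2 (by linarith)).trans x1).trans hYr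
      have e4 : (3 : ℝ) ^ (C + 7) * 2 ^ (C + 12) ≤ L := by
        have : (3 : ℝ) ^ (C + 7) ≤ 3 ^ (C + 8) := pow_le_pow_right₀ (by norm_num) (by omega)
        nlinarith [show (0:ℝ) < 2 ^ (C + 12) by positivity]
      have e5 : (3 * L) ^ (C + 7) * L ^ 2 ≤ (L / 2) ^ (C + 12) := by
        have e6 : (3 * L) ^ (C + 7) * L ^ 2 = (3 : ℝ) ^ (C + 7) * L ^ (C + 9) := by rw [mul_pow]; ring
        have e7 : (L / 2) ^ (C + 12) = L ^ (C + 9) * (L ^ 3 / 2 ^ (C + 12)) := by
          rw [div_pow]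
          ring
        rw [e6, e7, mul_comm]
        apply mul_le_mul_of_nonneg_left _ (by positivity)
        rw [le_div_iff₀ (by positivity)]
        refine e4.trans ?_
        calc L = L ^ 1 := (pow_one L).symm
          _ ≤ L ^ 3 := pow_le_pow_right₀ hL1 (by norm_num)
      calc (N : ℝ) * Real.log Y ^ (C + 7) ≤ (D * L ^ 2) * (3 * L) ^ (C + 7) :=
            mul_le_mul a2 e1 (by positivity) (by positivity)
        _ = D * ((3 * L) ^ (C + 7) * L ^ 2) := by ring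
        _ ≤ D * (L / 2) ^ (C + 12) := mul_le_mul_of_nonneg_left e5 (by linarith)
        _ ≤ Y := e3
    have hlogY1 : 1 ≤ Real.log Y := by linarith
    rw [mem_biUnion]
    refine ⟨k, ?_, ?_⟩
    · rw [mem_range, Nat.lt_succ_iff, hK]
      apply Nat.le_floor
      have e1 : Real.log Y = k * Real.log 2 := by
        rw [hY]
        push_cast
        rw [Real.log_pow]
      have e2 : (k : ℝ) * Real.log 2 ≤ Real.log 2 + 2 * L := by
        rw [← e1]
        have e1 : Real.log Y ≤ Real.log (2 * X) := Real.log_le_log hY0 hYr2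
        rw [Real.log_mul (by norm_num) hXr0.ne'] at e1
        linarith
      have e3 := Real.log_two_gt_d9
      have e4 := Real.log_two_lt_d9
      have e5 : (k : ℝ) * (69/100) ≤ k * Real.log 2 := mul_le_mul_of_nonneg_left (by linarith) (Nat.cast_nonneg _)
      linarith
    · rw [mem_filter, ← hY]
      refine ⟨hi, ⟨?_, hbig, ?_⟩, ?_⟩
      · have : (N : ℝ) ≤ Y := by
          calc (N : ℝ) = N * 1 := (mul_one _).symm
            _ ≤ N * Real.log Y ^ (C + 7) := mul_le_mul_of_nonneg_left (one_le_pow₀ hlogY1) hN0.le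
            _ ≤ Y := hbig
        exact_mod_cast this
      · calc (Y : ℝ) ≤ 2 * X := hYr2
          _ ≤ 2 * (D * Real.log X ^ W) := by linarith
          _ ≤ 2 * (N * Real.log Y ^ W) := by
              apply mul_le_mul_of_nonneg_left _ (by norm_num)
              exact mul_le_mul hDNr (pow_le_pow_left₀ hlogX0 hlogY _) (by positivity) hN0.le
          _ ≤ Real.log Y * (N * Real.log Y ^ W) := mul_le_mul_of_nonneg_right (by linarith) (by positivity)
          _ = N * Real.log Y ^ (W + 1) := by ring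
      · rw [← hD]
        intro hgood
        exact x3 (goodD_mono A B C X Y D hk1 hk2 (by linarith) hgood)
  have hSk : ∀ k ∈ range (K + 1), ((S.filter (fun i =>
      (N ≤ 2 ^ k ∧ (N : ℝ) * Real.log (2 ^ k : ℕ) ^ (C + 7) ≤ (2 ^ k : ℕ) ∧ ((2 ^ k : ℕ) : ℝ) ≤ N * Real.log (2 ^ k : ℕ) ^ (W + 1)) ∧
      ¬ GoodD A B (C + 1) (2 ^ k) (v i).toNat)).card : ℝ) ≤ Fintype.card ι / L ^ (U + 2) := by
    intro k _
    by_cases hadm : N ≤ 2 ^ k ∧ (N : ℝ) * Real.log (2 ^ k : ℕ) ^ (C + 7) ≤ (2 ^ k : ℕ) ∧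
        ((2 ^ k : ℕ) : ℝ) ≤ N * Real.log (2 ^ k : ℕ) ^ (W + 1)
    · refine c0 (2 ^ k) hadm ι v (fun i => ?_) hE _ ?_
      · have := hv i
        push_cast
        linarith
      · intro i hi
        rw [mem_filter] at hi
        have a1 := (hS i hi.1).1
        exact ⟨a1.ne', fun hc => hi.2.2 (hc a1)⟩
    · have : S.filter (fun i =>
        (N ≤ 2 ^ k ∧ (N : ℝ) * Real.log (2 ^ k : ℕ) ^ (C + 7) ≤ (2 ^ k : ℕ) ∧ ((2 ^ k : ℕ) : ℝ) ≤ N * Real.log (2 ^ k : ℕ) ^ (W + 1)) ∧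
        ¬ GoodD A B (C + 1) (2 ^ k) (v i).toNat) = ∅ := by
        rw [filter_eq_empty_iff]
        intro i _ hcon
        exact hadm hcon.1
      rw [this, card_empty, Nat.cast_zero]
      positivity
  have hKr : (K : ℝ) + 1 ≤ L ^ 2 := by
    have : (K : ℝ) ≤ 4 * L := by rw [hK]; exact Nat.floor_le (by positivity)
    nlinarith
  calc (S.card : ℝ) ≤ ∑ k ∈ range (K + 1), ((S.filter (fun i =>
        (N ≤ 2 ^ k ∧ (N : ℝ) * Real.log (2 ^ k : ℕ) ^ (C + 7) ≤ (2 ^ k : ℕ) ∧ ((2 ^ k : ℕ) : ℝ) ≤ N * Real.log (2 ^ k : ℕ) ^ (W + 1)) ∧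
        ¬ GoodD A B (C + 1) (2 ^ k) (v i).toNat)).card : ℝ) := by
        exact_mod_cast (card_le_card hcov).trans card_biUnion_le
    _ ≤ ∑ _k ∈ range (K + 1), (Fintype.card ι : ℝ) / L ^ (U + 2) := sum_le_sum hSk
    _ = ((K : ℝ) + 1) * (Fintype.card ι / L ^ (U + 2)) := by rw [sum_const, card_range, nsmul_eq_mul]; push_cast; ring
    _ ≤ L ^ 2 * (Fintype.card ι / L ^ (U + 2)) := mul_le_mul_of_nonneg_right hKr (by positivity)
    _ = Fintype.card ι / L ^ U := by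
        rw [pow_add]
        field_simp

end Pool.Agent.U160.FD
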