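import Pool.Agent.U160.FD.Scale
import Pool.Agent.U160.FD.Circle

/-!
# One scale, uniformly in the measure
-/

set_option autoImplicit false

namespace Pool.Agent.U160.FD

open MeasureTheory Pool.Agent.TH935.GF

/-- One scale, uniformly in the measure; the hypothesis is needed only for the given parameters. -/
theorem scaleU (h c : ℕ) (K : ℝ)
    {κ : Type} (Adm : ℕ → κ → Prop) (Good : ℕ → κ → ℤ → Prop) (R B₀ U W : ℕ)
    (H : ∃ N₀ : ℕ, ∀ N : ℕ, N₀ ≤ N → ∀ X : κ, Adm N X → ∀ (ι : Type) [Fintype ι] (v : ι → ℤ),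
      (∀ i, ((|v i| : ℤ) : ℝ) ≤ ((R + B₀ + 3 : ℕ) : ℝ) * N) →
      (En h v : ℝ) * N ≤ Real.log N ^ (c + 2) * (Fintype.card ι : ℝ) ^ (2 * h) →
      ∀ S : Finset ι, (∀ i ∈ S, ¬ Good N X (v i)) → (S.card : ℝ) ≤ Fintype.card ι / Real.log N ^ (U + W + 1)) :
    ∃ l0 : ℝ, 1 < l0 ∧ ∀ (μ : Measure ℝ) [IsProbabilityMeasure μ], SBall h c K μ →
      1 / 2 ≤ μ.real (Set.Icc (-(R:ℝ)) R) → ∀ lam : ℝ, l0 ≤ lam → ∀ X : κ, Adm ⌈lam⌉₊ X →
      ∀ s₀ : ℤ, |(s₀ : ℝ)| ≤ B₀ * lam →
      μ.real {x | x ∈ Set.Icc (-(R:ℝ)) R ∧ ∃ a : ℤ, |(a:ℝ) - s₀ - lam * x| ≤ Real.log lam ^ W ∧ ¬ Good ⌈lam⌉₊ X a} ≤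
        1 / Real.log lam ^ U := by
  classical
  obtain ⟨N₀, H0⟩ := H
  -- size conditions
  have ev1 : ∀ᶠ x : ℝ in Filter.atTop, Real.log (x + 1) ^ W + 2 ≤ x := by
    have h1 : (fun x : ℝ => Real.log x ^ W) =o[Filter.atTop] (fun x : ℝ => x) := by
      have := isLittleO_log_rpow_rpow_atTop (s := 1) (W : ℝ) (by norm_num)
      simpa using this
    have h2 := h1.def (c := 1/2) (by norm_num)
    have h3 : Filter.Tendsto (fun x : ℝ => x + 1) Filter.atTop Filter.atTop :=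
      Filter.tendsto_atTop_add_const_right _ _ Filter.tendsto_id
    filter_upwards [h3.eventually h2, Filter.eventually_ge_atTop 5] with x hx hx5
    rw [Real.norm_eq_abs, Real.norm_eq_abs, abs_of_nonneg (by linarith : (0:ℝ) ≤ x + 1)] at hx
    have := le_abs_self (Real.log (x + 1) ^ W)
    linarith
  have ev2 : ∀ᶠ x : ℝ in Filter.atTop, 4 ^ h + 14 + 4 * |K| * (2 * h + 1) * 4 ^ h ≤ Real.log x :=
    Real.tendsto_log_atTop.eventually_ge_atTop _
  obtain ⟨l1, hl1⟩ := Filter.eventually_atTop.1 (ev1.and ev2)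
  refine ⟨max (max l1 (N₀ + 2)) (2 * (2 * h + 1)), ?_, fun μ _ hSB hR lam hlam X hX s₀ hs₀ => ?_⟩
  · have : (2:ℝ) ≤ N₀ + 2 := by have : (0:ℝ) ≤ N₀ := Nat.cast_nonneg _; linarith
    exact lt_of_lt_of_le (by linarith) ((le_max_right _ _).trans (le_max_left _ _))
  have hla1 : l1 ≤ lam := ((le_max_left _ _).trans (le_max_left _ _)).trans hlam
  have hla2 : (N₀:ℝ) + 2 ≤ lam := ((le_max_right _ _).trans (le_max_left _ _)).trans hlam
  have hla3 : 2 * (2 * h + 1) ≤ lam := (le_max_right _ _).trans hlam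
  obtain ⟨hs1, hs2⟩ := hl1 lam hla1
  have hN00 : (0:ℝ) ≤ N₀ := Nat.cast_nonneg _
  have hlam0 : 0 < lam := by linarith
  set N := ⌈lam⌉₊ with hN
  have hN1 : lam ≤ N := Nat.le_ceil _
  have hN2 : (N:ℝ) < lam + 1 := Nat.ceil_lt_add_one hlam0.le
  have hNN : N₀ ≤ N := by
    have : (N₀:ℝ) ≤ N := by linarith
    exact_mod_cast this
  have H1 := H0 N hNN X hX
  obtain ⟨L, hL⟩ : ∃ L, L = Real.log (N:ℝ) := ⟨_, rfl⟩
  rw [← hL] at H1
  have hLl : Real.log lam ≤ L := by rw [hL]; exact Real.log_le_log hlam0 hN1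
  have hLl2 : L ≤ Real.log (lam + 1) := by
    rw [hL]; exact Real.log_le_log (by linarith) hN2.le
  have h4h : (1:ℝ) ≤ 4 ^ h := one_le_pow₀ (by norm_num)
  have hKp : 0 ≤ 4 * |K| * (2 * h + 1) * 4 ^ h := by positivity
  have hL14 : 14 ≤ Real.log lam := by linarith
  have hL1 : 1 ≤ L := by linarith
  have hL0 : 0 < L := by linarith
  set D : Set ℝ := Set.Icc (-(R:ℝ)) R with hDd
  have hDm : MeasurableSet D := measurableSet_Icc
  set BN : ℤ := (R + B₀ + 3) * N with hBN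
  set A : Finset ℤ := Finset.Icc (-BN) BN with hA
  have hLW : L ^ W + 2 ≤ lam := by
    have : L ^ W ≤ Real.log (lam + 1) ^ W := pow_le_pow_left₀ hL0.le hLl2 W
    linarith
  set m : ℕ := ⌈L ^ W⌉₊ with hm
  have hm1 : L ^ W ≤ m := Nat.le_ceil _
  have hm2 : (m:ℝ) < L ^ W + 1 := Nat.ceil_lt_add_one (by positivity)
  -- one shift
  have key : ∀ s' : ℤ, |s'| ≤ (m:ℤ) + 1 → μ.real (D ∩ {x | ¬ Good N X (⌊lam * x⌋ + (s₀ + s'))}) ≤ 2 / L ^ (U + W + 1) := by
    intro s' hs'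
    obtain ⟨s, hsd⟩ : ∃ s : ℤ, s = s₀ + s' := ⟨_, rfl⟩
    rw [← hsd]
    set g : ℝ → ℤ := fun x => ⌊lam * x⌋ + s with hg
    have hgm : Measurable g := by
      have : Measurable fun x : ℝ => ⌊lam * x⌋ := Int.measurable_floor.comp (measurable_const.mul measurable_id)
      exact this.add_const s
    have hgl : ∀ x, |(g x : ℝ) - s - lam * x| ≤ 1 := by
      intro x
      simp only [hg]
      push_cast
      have h1 := Int.floor_le (lam * x)
      have h2 := Int.lt_floor_add_one (lam * x)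
      rw [abs_le]
      constructor <;> linarith
    have hsr : |(s:ℝ)| ≤ B₀ * N + (m + 1) := by
      have h1 : ((|s'| : ℤ) : ℝ) ≤ (((m:ℤ) + 1 : ℤ) : ℝ) := by exact_mod_cast hs'
      push_cast at h1
      rw [hsd]
      push_cast
      have h2 : (B₀ : ℝ) * lam ≤ B₀ * N := mul_le_mul_of_nonneg_left hN1 (Nat.cast_nonneg _)
      exact (abs_add_le _ _).trans (by linarith)
    have hgA : ∀ x ∈ D, g x ∈ A := by
      intro x hx
      have hx1 : |x| ≤ R := abs_le.2 hx
      have h1 := hgl x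
      have h2 : |lam * x| ≤ lam * R := by
        rw [abs_mul, abs_of_pos hlam0]
        exact mul_le_mul_of_nonneg_left hx1 hlam0.le
      have h3 : |(g x : ℝ)| ≤ (R + B₀ + 3) * N := by
        have h4 : |(g x : ℝ)| ≤ |(g x : ℝ) - s - lam * x| + |(s:ℝ)| + |lam * x| := by
          have : (g x : ℝ) = ((g x : ℝ) - s - lam * x) + s + lam * x := by ring
          calc |(g x : ℝ)| = |((g x : ℝ) - s - lam * x) + s + lam * x| := by rw [← this]
            _ ≤ |((g x : ℝ) - s - lam * x) + s| + |lam * x| := abs_add_le _ _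
            _ ≤ _ := by gcongr; exact abs_add_le _ _
        have h5 : lam * R ≤ N * R := mul_le_mul_of_nonneg_right hN1 (Nat.cast_nonneg _)
        nlinarith [h4, h5, hsr, h1, h2]
      rw [hA, Finset.mem_Icc, ← abs_le]
      have : ((|g x| : ℤ) : ℝ) ≤ ((BN : ℤ) : ℝ) := by
        rw [hBN]
        push_cast
        exact h3
      exact_mod_cast this
    set w : ℤ → ℝ := fun a => μ.real (D ∩ g ⁻¹' {a}) with hw
    have hmw : ∀ a : ℤ, MeasurableSet (D ∩ g ⁻¹' {a}) := fun a => hDm.inter (hgm (MeasurableSet.singleton a))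
    have hpart : ∀ F : Finset ℤ, ∑ a ∈ F, w a = μ.real (D ∩ g ⁻¹' (F : Set ℤ)) := by
      intro F
      rw [hw, ← measureReal_biUnion_finset]
      · congr 1
        ext x
        simp
      · intro a _ b _ hab
        rw [Function.onFun, Set.disjoint_left]
        rintro x ⟨_, hx⟩ ⟨_, hx'⟩
        apply hab
        simp only [Set.mem_preimage, Set.mem_singleton_iff] at hx hx'
        rw [← hx, ← hx']
      · intro a _
        exact hmw a
    have hTA : μ.real D = ∑ a ∈ A, w a := by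
      rw [hpart]
      congr 1
      ext x
      simp only [Set.mem_inter_iff, Set.mem_preimage, Finset.mem_coe]
      exact ⟨fun hx => ⟨hx, hgA x hx⟩, fun hx => hx.1⟩
    have hT0 : 0 < μ.real D := by linarith
    have hT1 : μ.real D ≤ 1 := measureReal_le_one
    -- energy
    have hen : wEn h A w * N ≤ L ^ (c + 1) * μ.real D ^ (2 * h) := by
      have h1 := energy_measure μ h g hgm lam hlam0 s hgl D hDm A
      have hr : 0 < (2 * (h:ℝ) + 1) / lam := by positivity
      have h2h : (0:ℝ) < 2 * h + 1 := by positivity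
      have h3 : 2 ≤ lam / (2 * h + 1) := by
        rw [le_div_iff₀ h2h]
        linarith
      have hr2 : (2 * (h:ℝ) + 1) / lam ≤ 1 / 2 := by
        rw [div_le_iff₀ hlam0]
        linarith
      have h2 := hSB _ hr hr2
      rw [one_div_div] at h2
      have hlog1 : 0 ≤ Real.log (lam / (2 * h + 1)) := Real.log_nonneg (by linarith)
      have h5 : Real.log (lam / (2 * h + 1)) ≤ L := by
        have : lam / (2 * h + 1) ≤ lam := div_le_self hlam0.le (by have : (0:ℝ) ≤ h := Nat.cast_nonneg _; linarith)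
        exact (Real.log_le_log (by positivity) this).trans hLl
      have h7 : wEn h A w ≤ |K| * ((2 * h + 1) / lam) * L ^ c := by
        refine (h1.trans h2).trans ?_
        apply mul_le_mul _ (pow_le_pow_left₀ hlog1 h5 c) (by positivity) (by positivity)
        exact mul_le_mul_of_nonneg_right (le_abs_self K) hr.le
      have h8 : (N:ℝ) ≤ 2 * lam := by linarith
      have h9 : wEn h A w * N ≤ (2 * |K| * (2 * h + 1)) * L ^ c := by
        have h10 : 0 ≤ |K| * ((2 * (h:ℝ) + 1) / lam) * L ^ c := by positivity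
        calc wEn h A w * N ≤ (|K| * ((2 * h + 1) / lam) * L ^ c) * (2 * lam) :=
              mul_le_mul h7 h8 (Nat.cast_nonneg _) h10
          _ = (2 * |K| * (2 * h + 1)) * L ^ c * (lam / lam) := by ring
          _ = _ := by rw [div_self hlam0.ne', mul_one]
      have h11 : (1 / 4 : ℝ) ^ h ≤ μ.real D ^ (2 * h) := by
        rw [pow_mul]
        apply pow_le_pow_left₀ (by norm_num)
        nlinarith
      have h12 : 2 * |K| * (2 * h + 1) ≤ L * (1 / 4 : ℝ) ^ h := by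
        have h13 : 4 * |K| * (2 * h + 1) * 4 ^ h ≤ L := by linarith
        have h14 : (4 * |K| * (2 * h + 1) * 4 ^ h) * (1/4:ℝ) ^ h ≤ L * (1 / 4 : ℝ) ^ h :=
          mul_le_mul_of_nonneg_right h13 (by positivity)
        have h15 : (4:ℝ) ^ h * (1/4:ℝ) ^ h = 1 := by rw [← mul_pow]; norm_num
        have h16 : (4 * |K| * (2 * h + 1) * 4 ^ h) * (1/4:ℝ) ^ h = 4 * |K| * (2 * h + 1) := by
          rw [mul_assoc, h15, mul_one]
        rw [h16] at h14
        have : 0 ≤ |K| * (2 * h + 1) := by positivity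
        linarith
      calc wEn h A w * N ≤ (2 * |K| * (2 * h + 1)) * L ^ c := h9
        _ ≤ (L * (1 / 4 : ℝ) ^ h) * L ^ c := mul_le_mul_of_nonneg_right h12 (by positivity)
        _ = L ^ (c + 1) * (1 / 4 : ℝ) ^ h := by ring
        _ ≤ _ := mul_le_mul_of_nonneg_left h11 (by positivity)
    have h17 := weighted h (Good N X) N (((BN : ℤ) : ℝ)) L (c + 2) (U + W + 1) (c + 1) hL1 (by
        calc (4:ℝ) ^ h * L ^ (c + 1) ≤ L * L ^ (c + 1) := mul_le_mul_of_nonneg_right (by linarith) (by positivity)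
          _ = L ^ (c + 2) := by ring) (Nat.cast_nonneg _)
      (by
        intro ι _ v hv hE S hS
        exact H1 ι v (fun i => by
          have := hv i
          rw [hBN] at this
          push_cast at this ⊢
          exact this) hE S hS)
      A (by
        intro a ha
        rw [hA, Finset.mem_Icc, ← abs_le] at ha
        exact_mod_cast ha) w (fun a => measureReal_nonneg) (μ.real D) hT0 hTA hen
      (A.filter (fun a => ¬ Good N X a)) (Finset.filter_subset _ _) (fun a ha => (Finset.mem_filter.1 ha).2)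
    rw [hpart] at h17
    have h18 : D ∩ {x | ¬ Good N X (⌊lam * x⌋ + s)} ⊆ D ∩ g ⁻¹' ((A.filter (fun a => ¬ Good N X a) : Finset ℤ) : Set ℤ) := by
      rintro x ⟨hx1, hx2⟩
      refine ⟨hx1, ?_⟩
      simp only [Set.mem_preimage, Finset.mem_coe, Finset.mem_filter]
      exact ⟨hgA x hx1, hx2⟩
    refine (measureReal_mono h18).trans (h17.trans ?_)
    apply div_le_div_of_nonneg_right _ (by positivity)
    linarith
  -- union over the shifts
  have hsub : {x | x ∈ D ∧ ∃ a : ℤ, |(a:ℝ) - s₀ - lam * x| ≤ Real.log lam ^ W ∧ ¬ Good N X a} ⊆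
      ⋃ s ∈ Finset.Icc (-((m:ℤ) + 1)) ((m:ℤ) + 1), D ∩ {x | ¬ Good N X (⌊lam * x⌋ + (s₀ + s))} := by
    rintro x ⟨hx1, a, ha1, ha2⟩
    rw [Set.mem_iUnion₂]
    refine ⟨a - s₀ - ⌊lam * x⌋, ?_, hx1, ?_⟩
    · rw [Finset.mem_Icc, ← abs_le]
      have h1 := Int.floor_le (lam * x)
      have h2 := Int.lt_floor_add_one (lam * x)
      have h3 : Real.log lam ^ W ≤ L ^ W := pow_le_pow_left₀ (by linarith) hLl W
      have h4 : |((a:ℝ) - s₀ - ⌊lam * x⌋)| ≤ m + 1 := by
        rw [abs_le] at ha1 ⊢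
        constructor <;> linarith [ha1.1, ha1.2]
      have : ((|a - s₀ - ⌊lam * x⌋| : ℤ) : ℝ) ≤ (((m:ℤ) + 1 : ℤ) : ℝ) := by
        push_cast
        exact h4
      exact_mod_cast this
    · show ¬ Good N X (⌊lam * x⌋ + (s₀ + (a - s₀ - ⌊lam * x⌋)))
      have e : ⌊lam * x⌋ + (s₀ + (a - s₀ - ⌊lam * x⌋)) = a := by ring
      rw [e]
      exact ha2
  have hcardm : (((Finset.Icc (-((m:ℤ) + 1)) ((m:ℤ) + 1)).card : ℕ) : ℝ) ≤ 7 * L ^ W := by
    have h1 : (Finset.Icc (-((m:ℤ) + 1)) ((m:ℤ) + 1)).card = 2 * m + 3 := by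
      rw [Int.card_Icc]
      omega
    rw [h1]
    push_cast
    have h2 : 1 ≤ L ^ W := one_le_pow₀ hL1
    linarith
  calc μ.real {x | x ∈ D ∧ ∃ a : ℤ, |(a:ℝ) - s₀ - lam * x| ≤ Real.log lam ^ W ∧ ¬ Good N X a}
      ≤ μ.real (⋃ s ∈ Finset.Icc (-((m:ℤ) + 1)) ((m:ℤ) + 1), D ∩ {x | ¬ Good N X (⌊lam * x⌋ + (s₀ + s))}) :=
        measureReal_mono hsub (measure_ne_top _ _)
    _ ≤ ∑ s ∈ Finset.Icc (-((m:ℤ) + 1)) ((m:ℤ) + 1), μ.real (D ∩ {x | ¬ Good N X (⌊lam * x⌋ + (s₀ + s))}) :=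
        measureReal_biUnion_finset_le _ _
    _ ≤ ∑ _s ∈ Finset.Icc (-((m:ℤ) + 1)) ((m:ℤ) + 1), 2 / L ^ (U + W + 1) :=
        Finset.sum_le_sum fun s hs => key s (by rw [Finset.mem_Icc, ← abs_le] at hs; exact hs)
    _ = ((Finset.Icc (-((m:ℤ) + 1)) ((m:ℤ) + 1)).card : ℝ) * (2 / L ^ (U + W + 1)) := by
        rw [Finset.sum_const, nsmul_eq_mul]
    _ ≤ 7 * L ^ W * (2 / L ^ (U + W + 1)) := mul_le_mul_of_nonneg_right hcardm (by positivity)
    _ = 14 / L ^ (U + 1) := by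
        field_simp
        ring
    _ ≤ L / L ^ (U + 1) := div_le_div_of_nonneg_right (by linarith) (by positivity)
    _ = 1 / L ^ U := by
        rw [pow_succ, div_mul_eq_div_div_swap, div_self hL0.ne']
    _ ≤ 1 / Real.log lam ^ U := by
        apply one_div_le_one_div_of_le (by positivity)
        exact pow_le_pow_left₀ (by linarith) hLl U

end Pool.Agent.U160.FD
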